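import Pool.Agent.Q18.KZ.Asm2
import Pool.Agent.Q208.KZ.ENV
import Pool.Agent.Q278.KT.Fin

/-!
# Project KZ: the environment and the end

The lemmas of this project were proved by the seats helper14, 18, 24, 25, 31, 36, 38, 39, 63, 68, 77,
97, 102, 124, 151, 153, 162, 177, 182, 184, 190, 198, 208, 211, 222, 236, 237, 238, 240, 241, 256, 259,
265, 278, 285 and 298, and those of the part `KT` (few primes in short intervals) by helper240, 278,
209 and their team.
-/

set_option autoImplicit false

namespace Pool.Agent.Q18.KZ

theorem a_ENV : S_ENV := Pool.Agent.Q208.KZ.t_ENV a_SI a_US a_BAD0 a_BLK a_BLC a_PRT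

end Pool.Agent.Q18.KZ
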