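import Pool.Agent.Q18.KZ.S4
import Pool.Agent.Q237.KZ.RC
import Pool.Agent.Q237.KZ.RC1
import Pool.Agent.Q237.KZ.AN
import Pool.Agent.Q124.KZ.Chl
import Pool.Agent.Q124.KZ.Tails
import Pool.Agent.Q241.KZ.EX
import Pool.Agent.Q241.KZ.LN
import Pool.Agent.Q241.KZ.RAD
import Pool.Agent.Q222.KZ.FF
import Pool.Agent.Q222.KZ.PW
import Pool.Agent.Q222.KZ.F1
import Pool.Agent.Q222.KZ.F2
import Pool.Agent.Q222.KZ.F3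
import Pool.Agent.Q222.KZ.WC
import Pool.Agent.Q36.KZ.HDP
import Pool.Agent.Q36.KZ.HNP
import Pool.Agent.Q190.KZ.LC
import Pool.Agent.Q190.KZ.XE
import Pool.Agent.Q190.KZ.XO1
import Pool.Agent.Q14.KZ.LSW
import Pool.Agent.Q14.KZ.SM
import Pool.Agent.Q182.KZ.MO
import Pool.Agent.Q25.KZ.MOM
import Pool.Agent.Q25.KZ.PS
import Pool.Agent.Q256.KZ.RCH
import Pool.Agent.Q256.KZ.RCL
import Pool.Agent.Q256.KZ.RCS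
import Pool.Agent.Q68.KZ.XG
import Pool.Agent.Q68.KZ.XH
import Pool.Agent.Q68.KZ.XT
import Pool.Agent.Q265.KZ.XR
import Pool.Agent.Q265.KZ.XM
import Pool.Agent.Q265.KZ.XZ
import Pool.Agent.Q153.KZ.XO2
import Pool.Agent.Q151.KZ.XS

/-!
# Project KZ: assembly, first part: the random set exists
-/

set_option autoImplicit false

namespace Pool.Agent.Q18.KZ

theorem a_MO : S_MO := Pool.Agent.Q182.KZ.t_MO Pool.Agent.Q14.KZ.t_LSW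

theorem a_AN : S_AN := Pool.Agent.Q237.KZ.t_AN a_MO

theorem a_RC1 : S_RC1 := Pool.Agent.Q237.KZ.t_RC1 a_AN Pool.Agent.Q241.KZ.t_RAD

theorem a_RC : S_RC := Pool.Agent.Q237.KZ.t_RC Pool.Agent.Q241.KZ.t_RAD a_RC1

theorem a_RCL : S_RCL := Pool.Agent.Q256.KZ.t_RCL a_RC Pool.Agent.Q241.KZ.t_LN

theorem a_RCS : S_RCS := Pool.Agent.Q256.KZ.t_RCS a_RCL Pool.Agent.Q241.KZ.t_LN Pool.Agent.Q241.KZ.t_RAD

theorem a_TB : S_TB := Pool.Agent.Q124.KZ.t_TB Pool.Agent.Q25.KZ.t_MOM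

theorem a_TC : S_TC := Pool.Agent.Q124.KZ.t_TC Pool.Agent.Q25.KZ.t_MOM

theorem a_FF : S_FF := Pool.Agent.Q222.KZ.t_FF

theorem a_F1 : S_F1 := Pool.Agent.Q222.KZ.t_F1 a_FF

theorem a_F2 : S_F2 := Pool.Agent.Q222.KZ.t_F2 a_FF

theorem a_F3 : S_F3 := Pool.Agent.Q222.KZ.t_F3 a_FF

theorem a_WC : S_WC := Pool.Agent.Q222.KZ.t_WC a_RCL

theorem a_HNP : S_HNP := Q36.KZ.t_HNP a_FF Pool.Agent.Q222.KZ.t_PW a_F1 a_F2 a_WC a_RCL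

theorem a_HDP : S_HDP := Q36.KZ.t_HDP a_FF Pool.Agent.Q222.KZ.t_PW a_F3 a_WC

theorem a_EX : S_EX :=
  Pool.Agent.Q241.KZ.t_EX Pool.Agent.Q25.KZ.t_PS Pool.Agent.Q151.KZ.t_XS Pool.Agent.Q190.KZ.t_XE
    (Pool.Agent.Q265.KZ.t_XR a_TB Pool.Agent.Q222.KZ.t_PW a_RCS)
    (Pool.Agent.Q265.KZ.t_XL a_TB Pool.Agent.Q222.KZ.t_PW a_RCS)
    (Pool.Agent.Q265.KZ.t_XZ a_TB a_FF a_F1)
    (Pool.Agent.Q265.KZ.t_XM Pool.Agent.Q25.KZ.t_MOM a_FF)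
    (Pool.Agent.Q190.KZ.t_XO1 Pool.Agent.Q124.KZ.t_CHL)
    (Pool.Agent.Q153.KZ.t_XO2 Pool.Agent.Q14.KZ.t_SM a_FF)
    (Pool.Agent.Q68.KZ.t_XG1 a_TC a_FF) (Pool.Agent.Q68.KZ.t_XG2 a_TC a_FF)
    (Pool.Agent.Q68.KZ.t_XHN a_TB a_FF a_HNP) (Pool.Agent.Q68.KZ.t_XHD a_TB a_FF a_HDP)
    (Pool.Agent.Q68.KZ.t_XT a_TB Pool.Agent.Q222.KZ.t_PW Pool.Agent.Q190.KZ.t_LC Pool.Agent.Q256.KZ.t_RCH)

end Pool.Agent.Q18.KZ
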