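import Pool.Agent.Q18.KZ.S2

/-!
# Project KZ (helper18), third statement file: from the events to the completely multiplicative function

Every statement is a `Prop` with a complete proof in its docstring. `KZAll E P` means: there are `η₀ > 0` and `J` such that `P η j V` holds whenever `0 < η ≤ η₀`, `j ≥ J` and
`Ev E (20 CB) η j V`. Abbreviations: `θ = dd - d1 = 10^(-16)`, `h = hh δ i`, `2^{(1/2-δ)i-1} ≤ h ≤ 2^{(1/2-δ)i}`, `Ω(n)` number of prime factors with multiplicity; `Rg j n` and `n ≤ 2^{i+2}`, `j ≤ 2 i + 2`,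
imply `Ω(n) ≤ 20 (i+2)/j`, so `C^{Ω(n)} ≤ 2^{ε i}` for large `j`. All functions `aV, gu, gh, ghn` vanish at the primes `p < 2^{j/10}` (for large `j`: `gu p ≠ 0` implies `p > 2^j`; `gh p ≠ 0` implies
`p ≥ 2^{j/4}`), so `LP` of sums of them vanishes at `n` unless `Rg j n`.
-/

set_option autoImplicit false

namespace Pool.Agent.Q18.KZ

open Finset Filter Topology MeasureTheory
open scoped Classical
open Pool.Agent.W76.MO (hh nc cell lp Rough)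
open Q236.CM (LP)

/-- `P η j V` for all small `η`, all large `j` and all `V` with the events -/
def KZAll (E : KEnv) (P : ℝ → ℕ → (ℕ → Bool) → Prop) : Prop :=
  ∃ (η₀ : ℝ) (J : ℕ), 0 < η₀ ∧ ∀ (η : ℝ) (j : ℕ) (V : ℕ → Bool), 0 < η → η ≤ η₀ → J ≤ j →
    Ev E (20 * E.CB) η j V → P η j V

/-! ### completely multiplicative majorants -/

/-- **KZ-LPA**. Proof. Induction on the primes of `n` or directly: both sides are multiplicative over prime powers (`LP` is completely multiplicative, divisors factor), and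
`(a + b)^e = ∑ C(e, s) a^s b^{e-s} ≤ ∑_s (2a)^s (2b)^{e-s}` since `C(e, s) ≤ 2^e`. Induction version: for `n = p n'`, `LP(a+b)(n) = (a p + b p) LP(a+b)(n')`; prove the stronger statement with the weights
counted over the pairs (sublist of the list of prime factors, complement): expanding the product over the list `n.primeFactorsList` gives `∑ over subsets of positions`, and a divisor `l`
arises from at most `2^{Ω(n)}` subsets. -/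
def S_LPA : Prop := ∀ (a b : ℕ → ℝ), (∀ p, 0 ≤ a p) → (∀ p, 0 ≤ b p) → ∀ n : ℕ, n ≠ 0 →
  LP (fun p => a p + b p) n ≤ ∑ l ∈ n.divisors, LP (fun p => 2 * a p) l * LP (fun p => 2 * b p) (n / l)

/-- **KZ-SPL**: splitting off one large factor. Proof. Induction on the prime factorisation: for a list `p_1, …, p_r`, `∏ (s_i + b_i) ≤ ∏ s_i + ∑_i b_i ∏_{k ≠ i} (s_k + b_k)`; a prime with multiplicity `e` occurs `e` times. -/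
def S_SPL : Prop := ∀ (s b : ℕ → ℝ), (∀ p, 0 ≤ s p) → (∀ p, 0 ≤ b p) → ∀ n : ℕ, n ≠ 0 →
  LP (fun p => s p + b p) n ≤ LP s n +
    ∑ p ∈ n.primeFactors, (n.factorization p : ℝ) * (b p * LP (fun p => s p + b p) (n / p))

/-- **KZ-LPE**: Euler product. Proof. Every `m ∈ [2, M]` is a product of primes `≤ M`: `1 + ∑_{2 ≤ m ≤ M} LP F m ≤ ∏_{p ≤ M} (1 - F p)^{-1} ≤ exp (2 ∑ F p)`, as `(1-t)^{-1} ≤ e^{2t}` for `0 ≤ t ≤ 1/2`. -/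
def S_LPE : Prop := ∀ (F : ℕ → ℝ), (∀ p, 0 ≤ F p ∧ F p ≤ 1 / 2) → ∀ (M : ℕ),
  ∑ m ∈ Icc 2 M, LP F m ≤ Real.exp (2 * ∑ p ∈ (range (M + 1)).filter Nat.Prime, F p) - 1

/-! ### sizes of the hosts -/

/-- **KZ-DT**: values of the hosts. Proof. `Om1 ≥ cu/2`, `Om2 ≥ cH h/(2 i)` by the events, `#Lq ≥ cq h/(v i)`.
(1), (2): rearrange the sums; if `v ∈ Us i k`, `V v` and `q ∈ Lq i k v` or `q ∈ Lq i (pi k) v` then `(v, q) ∈ Fam1 i`; if `n ∈ H2D`, `lp n = q` then `(n/q, q) ∈ Fam2 i`.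
(3) `g1 ≤ al ww v^{dd-d1} (2/cu) (v i/(cq h)) · #{k : v q ∈ cell k or v q ∈ cell (pi k)}`, and this number is `≤ 1 + B0` (cells are disjoint; fibres of `pi`). `g2 ≤ al ww m^{1+dd-d1} 2 i/(cH h)`, one `k`.
(4) For a cell `k'`: `∑_u g1(u) u.1^{-1/2-dd}` over the `u` with product in the cell `k'`: the part of `k = k' ∈ B1` is
`al ww ∑_v v^{dd-d1-1/2-dd}/Om1 · ∑_{q ∈ Lq i k' v} 1/#Lq = al ww ∑_{v ∈ Us, V v} v^{-1/2-d1}/Om1 = al ww`; the partner part is present only if `k' = pi k`, i.e. `k' ∉ B1 ∪ B2`, for at most `B0` values of `k`, each contributing `al ww`.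
(5) `∑_u g2(u) u.1^{-1/2-dd}` over the products in the cell `k'`: `al ww ∑_{n ∈ H2D, Vn(n/lp n)} (n/lp n)^{1/2-d1}/Om2 = al ww` if `k' ∈ B2`, and `0` otherwise. -/
def S_DT : Prop := ∀ E : KEnv, ∃ C : ℝ, 1 ≤ C ∧ ∀ j : ℕ, E.i₁ ≤ j → ∀ V : ℕ → Bool, (∀ p : ℕ, V p = true → p.Prime) → EvO1 E j V → EvO2 E j V →
  ∀ i : ℕ, j ≤ i →
  (∀ q : ℕ, 0 ≤ E.H1 V i q ∧ E.H1 V i q ≤ ∑ u ∈ (E.Fam1 i).filter (fun u => u.2 = q), E.g1 V i u) ∧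
  (∀ q : ℕ, 0 ≤ E.H2 V i q ∧ E.H2 V i q ≤ ∑ u ∈ (E.Fam2 i).filter (fun u => u.2 = q), E.g2 V i u) ∧
  (∀ u : ℕ × ℕ, 0 ≤ E.g1 V i u ∧ E.g1 V i u ≤ (if Vn V u.1 then C * E.TT i u.1 else 0) ∧
    0 ≤ E.g2 V i u ∧ E.g2 V i u ≤ (if Vn V u.1 then C * E.TT i u.1 else 0)) ∧
  (∀ k' : ℕ, k' < nc E.δ i → ∑ u ∈ (E.Fam1 i).filter (fun u => u.1 * u.2 ∈ cell E.δ i k'), E.g1 V i u * (u.1 : ℝ) ^ (-(1 / 2 : ℝ) - dd) ≤
    (if k' ∈ E.B1 i then E.al * ww E.δ i else if k' ∈ E.B2 i then 0 else E.B0 * (E.al * ww E.δ i))) ∧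
  (∀ k' : ℕ, k' < nc E.δ i → ∑ u ∈ (E.Fam2 i).filter (fun u => u.1 * u.2 ∈ cell E.δ i k'), E.g2 V i u * (u.1 : ℝ) ^ (-(1 / 2 : ℝ) - dd) ≤
    (if k' ∈ E.B2 i then E.al * ww E.δ i else 0))

/-- **KZ-DG** (from DT, FF): all perturbations are small. Proof. `gu p ≠ 0`: `p` lies in a good cell of scale `s = sc p ≥ j`, so `gu p ≤ ww s · s/(cU h) ≤ C s^{-39} 2^{-(1-δ/2) s} ≤ C s^{-39} 2 · p^{-1+δ/2} · …`, hence
`gu p ≤ p^{-1+δ/2} s^{-38} ≤ p^{-1 + 10^{-15}}/2`. `gh p ≤ ∑_{i ∈ hs j p} C · #{u ∈ Fam i : u.2 = p, Vn u.1} · max TT(u.1)`; `u.1 ≤ 2^{i+1}/p`, so `TT(u.1) ≤ 4 · 2^{-(1-δ/2) i} (2^{i+1}/p)^{1+θ} i^{-39} ≤ 16 · p^{-1-θ} 2^{(δ/2+θ) i}`; by (Z) the number is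
`≤ 2^{e0 i}`; `i ≤ 4 log₂ p + 3`; so `gh p ≤ C (4 log₂ p + 4) p^{-1} p^{4.1 (δ/2 + θ + e0)} ≤ p^{-1+10^{-15}}/2`, because `p ≥ 2^{i/4} ≥ 2^{j/4}` is large. The last two assertions: `hs j p` consists of `i ≥ j`, and a host prime of scale `i` is `≥ 2^{i/4}`. -/
def S_DG : Prop := ∀ E : KEnv, KZAll E (fun _ j V => ∀ p : ℕ, p.Prime →
  0 ≤ E.gu j p ∧ 0 ≤ E.ghn V j 0 p ∧ (∀ I : ℕ, 0 ≤ E.ghn V j I p ∧ E.ghn V j I p ≤ E.gh V j p) ∧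
  E.gu j p + E.gh V j p ≤ (p : ℝ) ^ (-1 + 1 / 10 ^ 15 : ℝ) ∧
  (E.gu j p ≠ 0 → 2 ^ j < p ∧ E.gu j p ≤ (p : ℝ) ^ (-1 + E.δ / 2) * (KEnv.sc p : ℝ) ^ (-(38 : ℝ))) ∧
  ((p : ℝ) < (2 : ℝ) ^ ((j : ℝ) / 4) → E.gh V j p = 0))

/-- **KZ-DM** (from DT, FF): the mass of the hosts. Proof. `gh p = ∑_{i ≥ j} (H1 + H2) ≤ C ∑_i ∑_{u ∈ Fam i, u.2 = p, Vn u.1} TT(u.1)`. So the sum is
`≤ C ∑_{i ≥ j} 2^{(i+1)/8000} ∑_{u ∈ Fam i, Vn u.1} TT(u.1) ≤ C ∑_{i ≥ j} 2^{(i+1)/8000 - i/4000} ≤ 2^{-j/20000}` for large `j` (only the `i ≤ 4 log₂ N + 4` occur). -/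
def S_DM : Prop := ∀ E : KEnv, KZAll E (fun _ j V => ∀ N : ℕ,
  ∑ p ∈ (range N).filter Nat.Prime, E.gh V j p * (p : ℝ) ^ (1 / 8000 : ℝ) ≤ (2 : ℝ) ^ (-((j : ℝ) / 20000)))

/-- **KZ-DU**: the control primes. Proof. The primes of the scale `s ≥ j` in good cells have `∑ gu p ≤ nc · ww s`, and `p^{-δ/2} ≤ 2^{-δ s/2}`, `nc ≤ 2^{s - (1/2-δ) s + 1}`: the contribution is `≤ 2 s^{-40}`; `∑_{s ≥ j} 2 s^{-40} ≤ 1/j`. -/
def S_DU : Prop := ∀ E : KEnv, ∃ J : ℕ, ∀ j : ℕ, J ≤ j → ∀ N : ℕ,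
  ∑ p ∈ (range N).filter Nat.Prime, E.gu j p * (p : ℝ) ^ (-(E.δ / 2)) ≤ 1 / j

/-- **KZ-DE** (from LPE, DG, DM, DU): the Euler product. Proof. `F p = (aV p + 2 gu p + 2 gh p) p^{-δ/2}`, `LP F m = AA m · m^{-δ/2}`. `∑ F p ≤ η + 2/j + 2 · 2^{-j/20000}`; LPE. For the second sum: no `gu` at the primes `≤ 2^j` and
no factor `m^{-δ/2}` needed: `F p = aV p + 2 gh p`. (For `p` not prime `LP` does not see the value; use `F p = 0` there.) -/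
def S_DE : Prop := ∀ (E : KEnv) (ε : ℝ), 0 < ε → KZAll E (fun _ j V =>
  (∀ M : ℕ, ∑ m ∈ Icc 2 M, E.AA V j m * (m : ℝ) ^ (-(E.δ / 2)) ≤ ε) ∧ ∑ m ∈ Icc 2 (2 ^ j), E.AA V j m ≤ ε)

/-- **KZ-DSV** (from LPA, DG): the majorant and `SV`. Proof. LPA with `a = aV`, `b = 2 (gu + gh)`: `AA n ≤ ∑_{l ∣ n} LP(2 aV)(l) LP(4(gu+gh))(n/l)`, `LP(2 aV)(l) = 2^{Ω(l)} l^{-1/2-dd}` if `Vn V l` and `0` otherwise, and by DG `LP(4(gu + gh))(r) ≤ 4^{Ω(r)} r^{-1+10^{-15}}`. So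
`AA n ≤ 4^{Ω(n)} n^{10^{-15}} SV n ≤ 2^{I/10^{14}} SV n` for `n ≤ 2^{I+2}`, `j` large. If not `Rg j n` then `AA n = 0`. -/
def S_DSV : Prop := ∀ E : KEnv, KZAll E (fun _ j V => ∀ I n : ℕ, j ≤ 2 * I → n ≠ 0 → n ≤ 2 ^ (I + 2) →
  E.AA V j n ≤ (if Rg j n then (2 : ℝ) ^ ((I : ℝ) / 10 ^ 14) * SV V n else 0))

/-- **KZ-DA** (from DG, FF): the majorant at a multiplier. Proof. `u.1` is squarefree with at most three prime factors `p`, all in `V` and `≥ 2^{0.24 i}`, so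
`AA(u.1) = ∏ (p^{-1/2-dd} + 2 gu + 2 gh) ≤ u.1^{-1/2-dd} ∏ (1 + 2 p^{1/2+dd-1+10^{-15}}) ≤ u.1^{-1/2-dd}(1 + 2 · 2^{-0.119 i})^3`. -/
def S_DA : Prop := ∀ E : KEnv, KZAll E (fun _ j V => ∀ i : ℕ, j ≤ i → ∀ u ∈ E.Fam i, Vn V u.1 →
  E.AA V j u.1 ≤ (1 + (2 : ℝ) ^ (-((i : ℝ) / 100))) * (u.1 : ℝ) ^ (-(1 / 2 : ℝ) - dd))

/-! ### the three absolute estimates -/

/-- **KZ-UP** (from DE): large control primes. Proof. Write `n = p m`. `m = 1`: the primes of the cell; if the cell is good they contribute `∑ gu p = ww i`, otherwise `0`. `m ≥ 2`: `p > 2^{3i/5}`, so `m ≤ 2^{2i/5+1}`, and `p ∈ (a/m, (a+h)/m]` lies in one of at most two scales `s`,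
`i - log₂ m - 2 ≤ s ≤ i - log₂ m + 1`, `s ≥ 3i/5 - 1`. If `gu p ≠ 0` then `gu p ≤ ww s · s/(cU hh s)`. The number of the primes in the interval (of length `h/m ≥ 2^{(1/2-δ) i - 1}/m ≥ 2^{0.1 s + 1}`; primes of scale `s` are `2^{0.24 s}`-rough) is `≤ CB · 2 (h/m + 1)/s` by `btr`. So the contribution of `m` is
`≤ C AA(m) (ww s/hh s)(h/m)`, and `ww s ≤ C ww i (2^i/2^s)^{1/2+δ/2}` (`(i/s)^{40} ≤ 2^{40}`), `h ≤ C hh s (2^i/2^s)^{1/2-δ}`, `2^{i-s} ≤ 4 m`: `≤ C ww i · AA(m) m^{-δ/2}`. Sum over `m ≥ 2` by DE (with a small `ε'`). -/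
def S_UP : Prop := ∀ (E : KEnv) (ε : ℝ), 0 < ε → KZAll E (fun _ j V => ∀ i k : ℕ, j ≤ i → k < nc E.δ i →
  ∑ n ∈ cell E.δ i k, ∑ p ∈ n.primeFactors.filter (fun p : ℕ => (2 : ℝ) ^ (3 / 5 * (i : ℝ)) < p),
    E.gu j p * E.AA V j (n / p) ≤ (if k ∈ E.B1 i ∪ E.B2 i then 0 else ww E.δ i) + ε * ww E.δ i)

/-- **KZ-HPa** (from DT, DSV): pairs with `u.1 ∤ n/u.2` or with a large cofactor. Proof. By DT `g ≤ C TT`, by DSV `AA(n/u.2) ≤ 2^{i/10^{14}} SV(n/u.2)` (and `0` unless `Rg j (n/u.2)`; together with `u.2 ≥ 2^{i/10^6}` prime this gives `Rg j n`, as `i/10^6 ≥ j/10` may fail: but `gh u.2 ≠ 0` implies `u.2 ≥ 2^{j/4}`, FF). The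
multiplicity is `≤ 2 i + 2`. The events (HN), (HD) with `(a, b] = ` the cell: each of the `≤ 4(4 i + 9)` families/classes contributes `≤ (2 i + 2) C 2^{i/10^{14}} 2^{-(1/2 + 3·10^{-14}) i}`; `ww i = 2^{-(1/2+δ/2) i}/i^{40}` is larger by a power. Scales `i' > 4 i + 8` do not occur (`2^{i'/4} ≤ u.2 ≤ 2^{i+1}`). -/
def S_HPa : Prop := ∀ (E : KEnv) (ε : ℝ), 0 < ε → KZAll E (fun _ j V => ∀ i k : ℕ, j ≤ i → k < nc E.δ i →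
  ∑ i' ∈ (range (4 * i + 9)).filter (fun i' => j ≤ i'), ∑ n ∈ cell E.δ i k,
    ((if (i' : ℝ) ≤ 1.166 * i then ∑ u ∈ (E.Fam1 i').filter (fun u => u.2 ∣ n ∧ (2 : ℝ) ^ ((i : ℝ) / 10 ^ 6) ≤ u.2 ∧
        (¬ u.1 ∣ n / u.2 ∨ (2 : ℝ) ^ (0.31 * (i' : ℝ)) ≤ ((n / u.2 / u.1 : ℕ) : ℝ))),
        (n.factorization u.2 : ℝ) * (E.g1 V i' u * E.AA V j (n / u.2)) else 0) +
      ∑ u ∈ (E.Fam2 i').filter (fun u => u.2 ∣ n ∧ (2 : ℝ) ^ ((i : ℝ) / 10 ^ 6) ≤ u.2 ∧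
        (¬ u.1 ∣ n / u.2 ∨ (2 : ℝ) ^ (0.12 * (i' : ℝ)) ≤ ((n / u.2 / u.1 : ℕ) : ℝ))),
        (n.factorization u.2 : ℝ) * (E.g2 V i' u * E.AA V j (n / u.2))) ≤ ε * ww E.δ i)

/-- **KZ-HPb** (from DT, DA, DE, FF): small cofactors `c = n/(u.1 u.2) > 1`. Proof. `AA(n/u.2) = AA(c) AA(u.1) ≤ 2 AA(c) u.1^{-1/2-dd}` (DA), `g ≤ C TT(u.1)`, and `TT(u.1) u.1^{-1/2-dd} = ww i' · (i'/hh i') u.1^{1/2-d1}`. For fixed `c ≥ 2` and `i'` the products `u.1 u.2` lie in `(a/c, (a+h)/c]`, `2^{i'} ≤ 2^{i+1}/c`, `2^i/c ≤ 2^{i'+1}` (otherwise no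
term). Clip this interval to `(2^{i'}, 2^{i'+1}]` and extend it to length `≥ 2^{0.34 i'}` (`≥ 2^{0.43 i'}` for the second family) if necessary; since `c < 2^{0.31 i'}` (`c < 2^{0.12 i'}`) one has `h/c ≥ 2^{(1/2-δ) i - 1}/c ≥ 2^{(1/2 - δ) i' - 2} c^{-1/2-δ} ≥ 2^{0.344 i'}` (`≥ 2^{0.439 i'}`), so the length is `≤ 2 h/c`. By (REG1), (REG2):
`∑_u u.1^{1/2-d1} ≤ 20 CB · 2 (h/c)/i'`. So the contribution of `(c, i')` is `≤ C AA(c) ww i' · h/(c · hh i') ≤ C ww i · AA(c) c^{-δ/2}` as in UP (`i' ≥ i/1.32`, for each `c` at most three `i'`). The multiplicity of `u.2` in `n` is 1: `u.2 ∤ u.1`, `u.2 ≥ 2^{0.615 i'} > c` (`u.2 ≥ 2^{0.25 i'} > c`). DE. -/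
def S_HPb : Prop := ∀ (E : KEnv) (ε : ℝ), 0 < ε → KZAll E (fun _ j V => ∀ i k : ℕ, j ≤ i → k < nc E.δ i →
  ∑ i' ∈ (range (4 * i + 9)).filter (fun i' => j ≤ i'), ∑ n ∈ cell E.δ i k,
    (∑ u ∈ (E.Fam1 i').filter (fun u => u.1 * u.2 ∣ n ∧ u.1 * u.2 ≠ n ∧ ((n / u.2 / u.1 : ℕ) : ℝ) < (2 : ℝ) ^ (0.31 * (i' : ℝ))),
        (n.factorization u.2 : ℝ) * (E.g1 V i' u * E.AA V j (n / u.2)) +
      ∑ u ∈ (E.Fam2 i').filter (fun u => u.1 * u.2 ∣ n ∧ u.1 * u.2 ≠ n ∧ ((n / u.2 / u.1 : ℕ) : ℝ) < (2 : ℝ) ^ (0.12 * (i' : ℝ))),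
        (n.factorization u.2 : ℝ) * (E.g2 V i' u * E.AA V j (n / u.2))) ≤ ε * ww E.δ i)

/-- **KZ-HP** (from DT, DA, FF, HPa, HPb): host primes. Proof. Insert `ghn = ∑_{i' ∈ hs j q} ([near] H1 + H2)` and (1), (2) of DT; `i' ≤ 4 i + 8` because `q ≤ 2^{i+1}`. The pairs `u` with `u.2 = q ∣ n` are divided into: `u.1 ∤ n/q` or large cofactor (HPa), cofactor `> 1` and small (HPb), and `n = u.1 u.2`. In the last case `i' = i` (the products of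
`Fam i'` are in `(2^{i'}, 2^{i'+1}]`), `q ∤ u.1` has multiplicity one, `AA(u.1) ≤ (1 + 2^{-i/100}) u.1^{-1/2-dd}` by DA (if not `Vn V u.1` then `g = 0`), and (4), (5) of DT give at most `(1 + 2^{-i/100}) · (al ww` for `k ∈ B1` (and for `k ∈ B2`), `B0 al ww ≤ ww/64` for good cells`)`. -/
def S_HP : Prop := ∀ (E : KEnv) (ε : ℝ), 0 < ε → KZAll E (fun _ j V => ∀ i k : ℕ, j ≤ i → k < nc E.δ i →
  ∑ n ∈ cell E.δ i k, ∑ q ∈ n.primeFactors.filter (fun q : ℕ => (2 : ℝ) ^ ((i : ℝ) / 10 ^ 6) ≤ q),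
    (n.factorization q : ℝ) * (E.ghn V j i q * E.AA V j (n / q)) ≤
      (if k ∈ E.B1 i ∪ E.B2 i then E.al * ww E.δ i else ww E.δ i / 32) + ε * ww E.δ i)

/-- the small parts, seen from scale `i` -/
noncomputable def gus (E : KEnv) (j i p : ℕ) : ℝ := if (p : ℝ) ≤ (2 : ℝ) ^ (3 / 5 * (i : ℝ)) then E.gu j p else 0

/-- the small parts, seen from scale `i` -/
noncomputable def ghs (E : KEnv) (V : ℕ → Bool) (j i p : ℕ) : ℝ := if (p : ℝ) < (2 : ℝ) ^ ((i : ℝ) / 10 ^ 6) then E.gh V j p else 0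

/-- **KZ-PU** (from DG): products of small control primes. Proof. `LP(c₀ gus)(n) ≠ 0` implies that all prime factors `p` of `n` satisfy `2^j < p ≤ 2^{3i/5}`; by DG each factor is `c₀ gu p ≤ p^{-1+δ/2} · c₀ s^{-38} ≤ p^{-1+δ/2} s^{-37}`, `s = sc p ≥ j ≥ c₀`. So the product is `≤ n^{-1+δ/2} (∏ s_p)^{-37}` (with multiplicity). As `n ≥ 2^{0.9 i}` and
`s_p + 1 ≥ log₂ p`, `∑ s_p ≥ 0.85 i`, each `s_p ≤ 0.6 i`: divide the prime factors into two groups with `∑ s_p ≥ 0.2 i` in both (if some `s_p ≥ 0.2 i`, take it alone: the rest has sum `≥ 0.25 i`; otherwise add greedily until the sum is in `[0.2 i, 0.4 i]`). Since `s_p ≥ 2`, the product over a group is at least the sum: `∏ s_p ≥ 0.04 i²`. -/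
def S_PU : Prop := ∀ (E : KEnv) (c₀ : ℝ), 1 ≤ c₀ → KZAll E (fun _ j _ => ∀ i n : ℕ, j ≤ i → (2 : ℝ) ^ (0.9 * (i : ℝ)) ≤ n →
  LP (fun p => c₀ * gus E j i p) n ≤ (n : ℝ) ^ (-1 + E.δ / 2) * (i : ℝ) ^ (-(70 : ℝ)))

/-- **KZ-SPB** (from LPA, LPE, DG, DM): large part composed of small host primes. Proof. Let `b₂ = b ∣ n₂`, where `n₂` is the host part. Fix the factorisation `n = n₁ n₂ n₃`. As `n₂ ≥ 2^{i/10^6}` and all its primes are `< 2^{i/10^6}`, it has a divisor `b` with `2^{i/10^6} ≤ b < 2^{2i/10^6}`. `LP(8 ghs)(n₂) = LP(8 ghs)(b) LP(8 ghs)(n₂/b)`, and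
`LP(4 aV)(n₁) LP(8 ghs)(n₂/b) LP(8 gus)(n₃) ≤ 8^{Ω(n)} 2^{i/10^{15}+1} n₁^{-1/2-dd} 1[Vn n₁] (n/(b n₁))^{-1}` by DG. The number of factorisations of `n/b` is `≤ 3^{Ω(n)}`. So the sum is `≤ 2^{ε' i + i/10^{15}} ∑_b LP(8 ghs)(b) ∑_{n' : b n' ∈ cell} SV(n')`. The `n'` lie in an interval of length `≤ h/b + 1 ≤ 2 h/b`, of scale
`i'' ≥ i - log₂ b - 1` (cut at powers of two if necessary), `2h/b ≤ 2^{i''/2}`, so by (VR) the inner sum is `≤ C 2^{e0 i}(h/2^i + (2^i/b)^{-(1/2+10^{-5})})`, `b^{1/2+10^{-5}} ≤ 2^{1.00002 i/10^6}`. Finally `∑_{b ≥ 2^{i/10^6}} LP(8 gh)(b) ≤ 2^{-i/(8·10^9)} ∑_b LP(8 gh)(b) b^{1/8000} ≤ 2 · 2^{-i/(8·10^9)}` (LPE with `F = 8 gh p^{1/8000}`, DM). Total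
`≤ 2^{2 i/10^{15} + ε' i}(2^{-(1/2+δ) i - i/(8·10^9)} + 2^{-(1/2 + 10^{-5} - 1.1·10^{-6}) i}) ≤ ε ww i`. -/
def S_SPB : Prop := ∀ (E : KEnv) (ε : ℝ), 0 < ε → KZAll E (fun _ j V => ∀ i k : ℕ, j ≤ i → k < nc E.δ i →
  ∑ n ∈ cell E.δ i k, ∑ l ∈ n.divisors, ∑ r ∈ (n / l).divisors.filter (fun r : ℕ => (2 : ℝ) ^ ((i : ℝ) / 10 ^ 6) ≤ (r : ℝ)),
    LP (fun p => 4 * aV V p) l * LP (fun p => 8 * ghs E V j i p) r * LP (fun p => 8 * gus E j i p) (n / l / r) ≤ ε * ww E.δ i)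

/-- **KZ-SPC** (from DG): large `V`-part. Proof. For `r < 2^{i/10^6}`: `LP(8 ghs)(r) ≤ 8^{Ω} r^{-1+10^{-15}} ≤ 8^Ω r^{-1} 2^{i/10^{21}}`, `LP(8 gus)(n₃) ≤ 8^Ω n₃^{-1+δ/2} ≤ 8^Ω n₃^{-1} 2^{δ(i+1)/2}` (DG), `LP(4 aV)(l) = 4^Ω l^{-1/2-dd}` if `Vn V l`. The sum is `≤ 2^{ε' i + i/10^{21} + δ i/2} ∑_n SVe V (2^{i/100}) n` (times the number of `r`, `≤ 2^{ε' i}`), and by (VRe)
`≤ 2^{ε' i + i/10^{21} + δ i/2 + e0 i}(h 2^{-i} 2^{-i/10^{18}} + 2^{-(1/2+10^{-5}) i}) ≤ 2 · 2^{-(1/2+δ/2) i - i/(2·10^{18})} ≤ ε ww i` (`e0 = 10^{-20}`, `ε' = 10^{-20}`). -/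
def S_SPC : Prop := ∀ (E : KEnv) (ε : ℝ), 0 < ε → KZAll E (fun _ j V => ∀ i k : ℕ, j ≤ i → k < nc E.δ i →
  ∑ n ∈ cell E.δ i k, ∑ l ∈ n.divisors.filter (fun l : ℕ => (2 : ℝ) ^ ((i : ℝ) / 100) ≤ (l : ℝ)),
    ∑ r ∈ (n / l).divisors.filter (fun r : ℕ => (r : ℝ) < (2 : ℝ) ^ ((i : ℝ) / 10 ^ 6)),
    LP (fun p => 4 * aV V p) l * LP (fun p => 8 * ghs E V j i p) r * LP (fun p => 8 * gus E j i p) (n / l / r) ≤ ε * ww E.δ i)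

/-- **KZ-SPD** (from PU, LPE, DG, DM): small `V`-part and small host part. Proof. For fixed `l < 2^{i/100}`, `r < 2^{i/10^6}` the number of `n` in the cell divisible by `l r` is `≤ h/(l r) + 1 ≤ 2 h/(l r)`; `n₃ = n/(l r) ≥ 2^{0.9 i}`, so PU (`c₀ = 8`) gives `LP(8 gus)(n₃) ≤ (2^i/(l r))^{-1+δ/2} · i^{-70}`. Sum
`≤ 2 h 2^{-i(1-δ/2)} i^{-70} ∑_l LP(4 aV)(l) ∑_r LP(8 gh)(r) ≤ 8 · 2^{-(1/2+δ/2) i} i^{-70}` (LPE: `∑ 4 aV ≤ 4 η`, `∑ 8 gh ≤ 1/10`, so both sums are `≤ 2`). -/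
def S_SPD : Prop := ∀ (E : KEnv) (ε : ℝ), 0 < ε → KZAll E (fun _ j V => ∀ i k : ℕ, j ≤ i → k < nc E.δ i →
  ∑ n ∈ cell E.δ i k, ∑ l ∈ n.divisors.filter (fun l : ℕ => (l : ℝ) < (2 : ℝ) ^ ((i : ℝ) / 100)),
    ∑ r ∈ (n / l).divisors.filter (fun r : ℕ => (r : ℝ) < (2 : ℝ) ^ ((i : ℝ) / 10 ^ 6)),
    LP (fun p => 4 * aV V p) l * LP (fun p => 8 * ghs E V j i p) r * LP (fun p => 8 * gus E j i p) (n / l / r) ≤ ε * ww E.δ i)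

/-- **KZ-SP** (from LPA, DG, SPB, SPC, SPD): the small part. Proof. LPA twice: `LP(aV + (2 gus + 2 ghs))(n) ≤ ∑_{l ∣ n} LP(2 aV)(l) LP(4 gus + 4 ghs)(n/l) ≤ ∑_l ∑_{r ∣ n/l} LP(2 aV)(l) LP(8 ghs)(r) LP(8 gus)(n/l/r)`, and `LP(2 aV) ≤ LP(4 aV)`; every triple is in one of the three classes. -/
def S_SP : Prop := ∀ (E : KEnv) (ε : ℝ), 0 < ε → KZAll E (fun _ j V => ∀ i k : ℕ, j ≤ i → k < nc E.δ i →
  ∑ n ∈ cell E.δ i k, LP (fun p => aV V p + 2 * (gus E j i p + ghs E V j i p)) n ≤ ε * ww E.δ i)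

/-- **KZ-NK** (from SPL, DG, UP, HP, SP): the key inequality. Proof. SPL with `s p = aV p + 2 (gus p + ghs p)` and `b p = 2 (gu p 1[p > 2^{3i/5}] + ghn p 1[p ≥ 2^{i/10^6}])`: `aV + 2 (gu + ghn) ≤ s + b` and conversely `s + b ≤ aV + 2(gu + gh)`:
`AN n ≤ LP s n + ∑_p (n.factorization p) b p · AA(n/p)` (a prime `> 2^{3i/5}` has multiplicity one in `n ≤ 2^{i+1}`). Half of the sum over the cell: SP gives `ε ww`, UP and HP give the rest: `≤ ww(1 + 1/32) + 3 ε ww` for good cells and `≤ al ww + 3 ε ww` for the cells of `B1 ∪ B2`. Take `ε = al/1000`. -/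
def S_NK : Prop := ∀ E : KEnv, KZAll E (fun _ j V => ∀ i k : ℕ, j ≤ i → k < nc E.δ i →
  (∑ n ∈ cell E.δ i k, (E.AN V j i n - LP (aV V) n) / 2 ≤ E.WC i k * (1 + 1 / 16)) ∧
  ∑ n ∈ cell E.δ i k, LP (aV V) n ≤ E.WC i k / 64)

/-! ### far dipoles -/

/-- **KZ-TS** (from DT, DSV, FF): the signed estimate. Proof. Write `n = q m`; if `G1 V i k q ≠ 0` with `i > 1.166 I` then `q ≥ 2^{0.615 i} ≥ 2^{0.717 I}`, so `m ≤ 2^{I+1}/q ≤ 2^{0.3 I}`, `i ≤ (I+1)/0.615 ≤ 2 I`, and `i ∈ hs j q` is automatic. So the sum is `∑_m φ(m) ∑_i ∑_{k ∈ B1 i} θ(i,k) ∑_{q : q m ∈ (a,b]} G1 V i k q`. For fixed `m, i, k`: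
`∑_q G1 = al ww ∑_{v ∈ Us, V v} v^{dd-d1}/Om1 · (#{q ∈ Lq i k v : q m ∈ (a,b]}/#Lq i k v - #{q ∈ Lq i (pi k) v : q m ∈ (a,b]}/#Lq i (pi k) v)`. The bracket is in `[-1, 1]`, and it is `0` if all `q ∈ Lq i k v ∪ Lq i (pi k) v` satisfy `q m ∈ (a,b]` or all of them do not (`1 - 1`, `0 - 0`). Otherwise there are `q₁, q₂` in this union such that an
end point `e ∈ {a, b}` lies between `q₁ m` and `q₂ m`; all `q` in the union have `|v q - A| ≤ 2^{0.57 i} + 2 h`, `A = 2^i + k h` (`pi_near`), so `|A m - v e| ≤ 2^{0.57 i + 2} m`. With `Om1 ≥ cu/2` and `|φ(m)| ≤ AA(m) ≤ 2^{I/10^{14}} SV(m) 1[Rg j m]` (DSV) the sum is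
`≤ (2/cu) 2^{I/10^{14}} ∑_{e ∈ {a,b}} ∑_{1.166 I < i ≤ 2I} FT i I e ≤ C I 2^{I/10^{14}} 2^{-(1/2+1/1000) I}` by (T). -/
def S_TS : Prop := ∀ E : KEnv, KZAll E (fun _ j V => ∀ (I a b : ℕ) (φ : ℕ → ℝ) (θ : ℕ × ℕ → ℝ), j ≤ I → 2 ^ I ≤ a → a ≤ b → b ≤ 2 ^ (I + 1) →
  (∀ m : ℕ, m ≠ 0 → |φ m| ≤ E.AA V j m) → (∀ x, |θ x| ≤ 1) →
  |∑ n ∈ Ioc a b, ∑ q ∈ n.primeFactors.filter (fun q : ℕ => (2 : ℝ) ^ (0.7 * (I : ℝ)) < q), E.fr V j I θ q * φ (n / q)| ≤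
    (2 : ℝ) ^ (-(1 / 2 + 1 / 2000) * (I : ℝ)))

/-- **KZ-DEC** (from FF): decomposition into near and far part. Proof. `fp = fn + fr`, and `fr q ≠ 0` implies `q > 2^{0.7 I}` (see TS). If `n ∈ (2^I, 2^{I+1}]` has no prime factor `> 2^{0.7 I}` then `LP fp n = LP fn n`. Otherwise there is exactly one, `q`, with multiplicity one, and the prime factors of `n/q < 2^{0.3 I + 1}` are smaller, so
`LP fp n = (fn q + fr q) LP fn (n/q)` and `LP fp (n/q) = LP fn (n/q)`. -/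
def S_DEC : Prop := ∀ E : KEnv, KZAll E (fun _ j V => ∀ (I n : ℕ) (z : ℕ × ℕ → ℝ), j ≤ I → 2 ^ I < n → n ≤ 2 ^ (I + 1) →
  E.ff V j z n = LP (E.fn V j I z) n +
    ∑ q ∈ n.primeFactors.filter (fun q : ℕ => (2 : ℝ) ^ (0.7 * (I : ℝ)) < q), E.fr V j I z q * E.ff V j z (n / q))

/-! ### the fixed point -/

/-- **KZ-LB** (from DG): general Lipschitz bounds. Proof. `|fp z p| ≤ aV + gu + gh`, `|fp z p - fp z' p| ≤ ε (gu + gh)` (`|G1| ≤ G1a`, `G2 ≥ 0`). For a product over a list, expand `∏ (c_i + y_i)`: the difference is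
`∑_{S ≠ ∅} ∏_{S^c} c (∏_S y - ∏_S y')`, `|∏_S y - ∏_S y'| ≤ |S| ε ∏_S g ≤ 2^{|S|-1} ε ∏_S g`, total `≤ ε (∏ (c + 2g) - ∏ c)/2`. The same for `fn` with `AN`. -/
def S_LB : Prop := ∀ E : KEnv, KZAll E (fun _ j V => ∀ (z z' : ℕ × ℕ → ℝ) (ε : ℝ), (∀ x, |z x| ≤ 1) → (∀ x, |z' x| ≤ 1) → (∀ x, |z x - z' x| ≤ ε) →
  ∀ n : ℕ, n ≠ 0 → |E.ff V j z n| ≤ E.AA V j n ∧ |E.ff V j z n - E.ff V j z' n| ≤ ε * E.AA V j n ∧
  ∀ I : ℕ, |LP (E.fn V j I z) n| ≤ E.AN V j I n ∧ E.AN V j I n ≤ E.AA V j n ∧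
    |LP (E.fn V j I z) n - LP (E.fn V j I z') n| ≤ ε * ((E.AN V j I n - LP (aV V) n) / 2))

/-- **KZ-LM** (from DT, DG, FF): the main terms. Proof. (`W_n`.) Good cell: for the primes `p` of the cell put `W_p = gu p`; `fn z p = aV p + z_C gu p + hosts`, so `|Δ fn p - gu p Δz_C| ≤ ε ghn p = ε ((AN p - LP aV p)/2 - W_p)`; `∑ W_p = ww i`. Cell of `B1`: for `v ∈ Us i k`, `V v`, `q ∈ Lq i k v`, `n = v q` (this determines `v < q`) put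
`W_n = v^{-1/2-dd} · al ww v^{dd-d1}/(Om1 #Lq i k v)`; then `∑ W_n = al ww`. In the expansion of LB for `n = v q` the term `S = {q}` is `v^{-1/2-dd} Δ y_q`, where `y_q` contains the summand `z_C · al ww v^{dd-d1}/(Om1 #Lq)` (`i ∈ hs j q`, near: `i ≤ 1.166 i`), and all the other summands are bounded by `ε` times the corresponding parts of `gu q + ghn q` (`G1a` has the
same summands with the sign `+`). So `|Δ LP fn n - W_n Δz_C| ≤ ε ((AN n - LP aV n)/2 - W_n)`. Cell of `B2`: the same for `n ∈ H2D i k`, `m = n/lp n`, `Vn V m`, `W_n = m^{-1/2-dd} · al ww m^{1+dd-d1}/Om2`. Sum over the cell (LB for the other `n`). -/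
def S_LM : Prop := ∀ E : KEnv, KZAll E (fun _ j V => ∀ (z z' : ℕ × ℕ → ℝ) (ε : ℝ), (∀ x, |z x| ≤ 1) → (∀ x, |z' x| ≤ 1) → (∀ x, |z x - z' x| ≤ ε) →
  ∀ i k : ℕ, j ≤ i → k < nc E.δ i →
  |∑ n ∈ cell E.δ i k, (LP (E.fn V j i z) n - LP (E.fn V j i z') n) - E.WC i k * (z (i, k) - z' (i, k))| ≤
    ε * (∑ n ∈ cell E.δ i k, (E.AN V j i n - LP (aV V) n) / 2 - E.WC i k))

/-- **KZ-FX** (from DE, NK, TS, DEC, LB, LM): the solution of all equations. Proof. Let `F z (i,k) = ∑_{n ∈ cell i k} ff z n + [i = j] (1 + ∑_{2 ≤ n ≤ 2^j} ff z n)/nc δ j` for `j ≤ i`, `k < nc δ i`, and `F z x = z x` for the other indices `x`; weights `W = WC i k` (and `1`). Apply `Pool.Agent.W76.MO.solve`.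
Value at `0`: `ff 0 n = LP aV n`, so by NK `|F 0 (i,k)| ≤ WC/64 + [i=j] 2/nc δ j`, and `nc δ j ≥ 2^{(1/2+δ) j}`, so `2/nc ≤ al ww j/100` for large `j` (`2^{δ j/2} ≥ 200 j^{40}/al`; `∑_{2 ≤ n ≤ 2^j} AA n ≤ 1` by DE). Lipschitz: DEC: `ff = LP fn + ∑ fr · ff(n/q)`. Near part: LM and NK: error `≤ ε WC/16`. Far part:
`fr z q ff z (n/q) - fr z' q ff z' (n/q) = (fr z q - fr z' q) ff z (n/q) + fr z' q (ff z (n/q) - ff z' (n/q))`; `fr` is linear in `z`: TS with `θ = (z - z')/ε`, `φ = ff z`, and with `θ = z'`, `φ = (ff z - ff z')/ε` (LB): error `≤ 2 ε 2^{-(1/2+1/2000) i} ≤ ε al ww i/100`. The term `[i = j]`: `ε ∑ AA/nc ≤ ε al ww/100`. Total `≤ ε WC/4`.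
(If `ε = 0` then `z = z'`; the cell `(2^I, …]` is contained in `(2^I, 2^{I+1}]`.) -/
def S_FX : Prop := ∀ E : KEnv, KZAll E (fun _ j V => ∃ z : ℕ × ℕ → ℝ, (∀ x, |z x| ≤ 1) ∧
  ∀ i k : ℕ, j ≤ i → k < nc E.δ i →
    ∑ n ∈ cell E.δ i k, E.ff V j z n + (if i = j then (1 + ∑ n ∈ Icc 2 (2 ^ j), E.ff V j z n) / nc E.δ j else 0) = 0)

/-- **KZ-CON** (from NK, TS, DEC, LB): the partial sums. Proof. `ff` is completely multiplicative (`Q236.CM.LP_mul`), `ff 1 = 1`. `S(2^j) = 1 + ∑_{2 ≤ n ≤ 2^j} ff`; adding the `nc δ j` cells of scale `j` gives `S(2^{j+1}) = 0`; then `S = 0` at all end points of cells of scale `> j` (induction, as in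
`Q236/CM/Fi.lean`, `nc_mul`). For `2^i < N ≤ 2^{i+1}`, `i > j`, let `A` be the left end point of the cell of `N`: `S(N) = ∑_{A < n ≤ N} ff n`; by DEC, LB, NK and TS (for the interval `(A, N]`, `φ = ff`, `θ = z`) `|S(N)| ≤ ∑_{cell} AN n + 2^{-(1/2+1/2000) i} ≤ 4 ww i + … ≤ 8 · 2^{-(1/2+δ/2) i} ≤ 16 N^{-1/2-δ/2}`. For `N ≤ 2^{j+1}` the finitely many values are bounded. -/
def S_CON : Prop := ∀ E : KEnv, KZAll E (fun _ j V => ∀ z : ℕ × ℕ → ℝ, (∀ x, |z x| ≤ 1) →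
  (∀ i k : ℕ, j ≤ i → k < nc E.δ i →
    ∑ n ∈ cell E.δ i k, E.ff V j z n + (if i = j then (1 + ∑ n ∈ Icc 2 (2 ^ j), E.ff V j z n) / nc E.δ j else 0) = 0) →
  ∃ C : ℝ, 0 < C ∧ ∀ N : ℕ, 1 ≤ N → |∑ n ∈ Icc 1 N, E.ff V j z n| ≤ C * (N : ℝ) ^ (-(1 / 2 : ℝ) - E.δ / 2))

/-- **KZ-FIN** (from EX, FX, CON): the completely multiplicative function. Proof. Take `η = η₀` the minimum of the two `η₀`, `j` large, `V` from EX. -/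
def S_FIN : Prop := Nonempty KEnv → ∃ (f : ℕ → ℝ) (c C : ℝ), 0 < c ∧ 0 < C ∧ f 1 = 1 ∧
  (∀ m n : ℕ, 1 ≤ m → 1 ≤ n → f (m * n) = f m * f n) ∧
  ∀ N : ℕ, 1 ≤ N → |∑ n ∈ Icc 1 N, f n| ≤ C * (N : ℝ) ^ (-(1 / 2 : ℝ) - c)

end Pool.Agent.Q18.KZ
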