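import Pool.Agent.Q18.KZ.Asm1
import Pool.Agent.Q102.KZ.LB
import Pool.Agent.Q102.KZ.NK
import Pool.Agent.Q151.KZ.CHE
import Pool.Agent.Q151.KZ.CNT
import Pool.Agent.Q151.KZ.HVY
import Pool.Agent.Q151.KZ.PAIR
import Pool.Agent.Q153.KZ.SPB
import Pool.Agent.Q177.KZ.END
import Pool.Agent.Q177.KZ.PRT
import Pool.Agent.Q184.KZ.DM
import Pool.Agent.Q190.KZ.DT
import Pool.Agent.Q190.KZ.LPA
import Pool.Agent.Q198.KZ.POR
import Pool.Agent.Q198.KZ.US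
import Pool.Agent.Q238.KZ.DG
import Pool.Agent.Q238.KZ.HPb
import Pool.Agent.Q24.KZ.BLK
import Pool.Agent.Q240.KZ.Cons
import Pool.Agent.Q240.KZ.SIw
import Pool.Agent.Q241.KZ.BLC
import Pool.Agent.Q241.KZ.FIN
import Pool.Agent.Q285.KZ.BAD0
import Pool.Agent.Q298.KZ.FX
import Pool.Agent.Q298.KZ.LM
import Pool.Agent.Q298.KZ.TS
import Pool.Agent.Q298.KZ.UP
import Pool.Agent.Q39.KZ.PU
import Pool.Agent.Q39.KZ.SP
import Pool.Agent.Q39.KZ.SPC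
import Pool.Agent.Q39.KZ.SPD
import Pool.Agent.Q63.KZ.DE
import Pool.Agent.Q63.KZ.DEC
import Pool.Agent.Q63.KZ.DS
import Pool.Agent.Q63.KZ.DU
import Pool.Agent.Q63.KZ.HP
import Pool.Agent.Q63.KZ.HPa

/-!
# Project KZ: assembly, second part
-/

set_option autoImplicit false

namespace Pool.Agent.Q18.KZ

theorem a_DT : S_DT := Pool.Agent.Q190.KZ.t_DT
theorem a_DG : S_DG := Pool.Agent.Q238.KZ.t_DG a_DT a_FF
theorem a_DM : S_DM := Pool.Agent.Q184.KZ.t_DM a_DT a_FF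
theorem a_DU : S_DU := Pool.Agent.Q63.KZ.t_DU
theorem a_LPA : S_LPA := Pool.Agent.Q190.KZ.t_LPA
theorem a_SPL : S_SPL := Pool.Agent.Q190.KZ.t_SPL
theorem a_LPE : S_LPE := Pool.Agent.Q190.KZ.t_LPE
theorem a_DE : S_DE := Pool.Agent.Q63.KZ.t_DE a_LPE a_DG a_DM a_DU
theorem a_DEC : S_DEC := Pool.Agent.Q63.KZ.t_DEC a_FF
theorem a_DSV : S_DSV := Pool.Agent.Q63.KZ.t_DSV a_LPA a_DG
theorem a_DA : S_DA := Pool.Agent.Q63.KZ.t_DA a_DG a_FF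
theorem a_UP : S_UP := Pool.Agent.Q298.KZ.t_UP a_DE
theorem a_HPa : S_HPa := Pool.Agent.Q63.KZ.t_HPa a_DT a_DSV a_FF
theorem a_HPb : S_HPb := Pool.Agent.Q238.KZ.t_HPb a_DT a_DA a_DE a_FF
theorem a_HP : S_HP := Pool.Agent.Q63.KZ.t_HP a_DT a_DA a_FF a_HPa a_HPb
theorem a_PU : S_PU := Pool.Agent.Q39.KZ.t_PU a_DG
theorem a_SPB : S_SPB := Pool.Agent.Q153.KZ.t_SPB a_LPA a_LPE a_DG a_DM
theorem a_SPC : S_SPC := Pool.Agent.Q39.KZ.t_SPC a_DG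
theorem a_SPD : S_SPD := Pool.Agent.Q39.KZ.t_SPD a_PU a_LPE a_DG a_DM
theorem a_SP : S_SP := Pool.Agent.Q39.KZ.t_SP a_LPA a_DG a_SPB a_SPC a_SPD
theorem a_NK : S_NK := Pool.Agent.Q102.KZ.t_NK a_SPL a_UP a_HP a_SP
theorem a_LB : S_LB := Pool.Agent.Q102.KZ.t_LB
theorem a_LM : S_LM := Pool.Agent.Q298.KZ.t_LM a_FF a_LB
theorem a_TS : S_TS := Pool.Agent.Q298.KZ.t_TS a_DSV a_FF
theorem a_FX : S_FX := Pool.Agent.Q298.KZ.t_FX a_DE a_NK a_TS a_DEC a_LB a_LM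
theorem a_CON : S_CON := Pool.Agent.Q240.KZ.t_CON a_NK a_TS a_DEC a_LB
theorem a_FIN : S_FIN := Pool.Agent.Q241.KZ.t_FIN a_EX a_FX a_CON

theorem a_CHE : S_CHE := Pool.Agent.Q151.KZ.t_CHE
theorem a_PAIR : S_PAIR := Pool.Agent.Q151.KZ.t_PAIR
theorem a_CNT : S_CNT := Pool.Agent.Q151.KZ.t_CNT a_PAIR
theorem a_HVY : S_HVY := Pool.Agent.Q151.KZ.t_HVY a_PAIR
theorem a_POR : S_POR := Pool.Agent.Q198.KZ.t_POR
theorem a_US : S_US := Pool.Agent.Q198.KZ.t_US a_CHE a_CNT a_HVY a_POR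
theorem a_SI : S_SI := Pool.Agent.Q240.KZ.si
theorem a_BAD0 : S_BAD0 := Pool.Agent.Q285.KZ.t_BAD0
theorem a_BLK : S_BLK := Pool.Agent.Q24.KZ.t_BLK
theorem a_BLC : S_BLC := Pool.Agent.Q241.KZ.t_BLC
theorem a_PRT : S_PRT := Pool.Agent.Q177.KZ.t_PRT a_BLC

/-- Everything but the environment. -/
theorem a_END' (hENV : S_ENV) : S_END := Pool.Agent.Q177.KZ.t_END a_FIN hENV

end Pool.Agent.Q18.KZ
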