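import Mathlib
import Pool.Agent.Q236.CM.Base

/-!
# MP_768c9c_nt (Kahane-Saias), project KZ (helper18): definitions

A completely multiplicative `f` with `|∑_{n ≤ N} f(n)| ≤ C N^(-1/2-c)` is built. Its values:

* a random sparse set `V` of primes (`P(p ∈ V) = p^(-1/2+d1)`, `p ≥ 2^(j/10)`), `f(v) = v^(-1/2-dd)` on it;
* control primes: all primes of the good cells of scale `≥ j`;
* host primes `q`: for a bad cell `J` of the first kind (`B1`) dipoles `v q ∈ J`, `v q' ∈ π(J)`, for a bad cell of the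
  second kind (`B2`) monopoles `m q ∈ J` with `m` a product of elements of `V`.

Scale `i` : numbers in `(2^i, 2^(i+1)]`, cells of length `hh δ i = 2^⌊(1/2-δ) i⌋`, weights `ww δ i`.
-/

set_option autoImplicit false

namespace Pool.Agent.Q18.KZ

open Finset Filter Topology MeasureTheory
open scoped Classical
open Pool.Agent.W76.MO (hh nc cell lp Rough)
open Q236.CM (LP)

/-! ### exponents -/

/-- `f(v) = v^(-1/2-dd)` on the random set -/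
noncomputable def dd : ℝ := 1 / 10 ^ 4

/-- a prime `p` belongs to the random set with probability `p^(-1/2+d1)` -/
noncomputable def d1 : ℝ := 1 / 10 ^ 4 - 1 / 10 ^ 16

/-- the loss `2^(e0 i)` in the moment estimates -/
noncomputable def e0 : ℝ := 1 / 10 ^ 20

/-- the weights of the cells of scale `i` -/
noncomputable def ww (δ : ℝ) (i : ℕ) : ℝ := (2 : ℝ) ^ (-(1 / 2 + δ / 2) * (i : ℝ)) / (i : ℝ) ^ 40

/-! ### the random set -/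

/-- the probability that `p` belongs to the random set -/
noncomputable def rho (j p : ℕ) : ℝ :=
  if p.Prime ∧ 2 ^ (j / 10) ≤ p then (p : ℝ) ^ (-(1 / 2 : ℝ) + d1) else 0

/-- a probability measure on `ℕ → Bool` with independent coordinates -/
def IsRand (ρ : ℕ → ℝ) (P : Measure (ℕ → Bool)) : Prop :=
  IsProbabilityMeasure P ∧ ∀ (S : Finset ℕ) (φ : ℕ → Bool → ℝ),
    ∫ ω, ∏ p ∈ S, φ p (ω p) ∂P = ∏ p ∈ S, (ρ p * φ p true + (1 - ρ p) * φ p false)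

/-- all prime factors of `m` belong to `V` -/
def Vn (V : ℕ → Bool) (m : ℕ) : Prop := ∀ p ∈ m.primeFactors, V p = true

/-- the values on the random set -/
noncomputable def aV (V : ℕ → Bool) (p : ℕ) : ℝ := if V p = true then (p : ℝ) ^ (-(1 / 2 : ℝ) - dd) else 0

/-- `n ≥ 1` and all prime factors of `n` are `≥ 2^(j/10)` -/
def Rg (j n : ℕ) : Prop := n ≠ 0 ∧ ∀ p : ℕ, p.Prime → p ∣ n → 2 ^ (j / 10) ≤ p

/-- `∑_{l ∣ m, l ∈ ⟨V⟩} l^(-1/2-dd) (m/l)^(-1)` -/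
noncomputable def SV (V : ℕ → Bool) (m : ℕ) : ℝ :=
  ∑ l ∈ m.divisors.filter (Vn V), (l : ℝ) ^ (-(1 / 2 : ℝ) - dd) * (((m / l : ℕ) : ℝ))⁻¹

/-- the same sum over the divisors `l ≥ x` -/
noncomputable def SVe (V : ℕ → Bool) (x : ℝ) (m : ℕ) : ℝ :=
  ∑ l ∈ m.divisors.filter (fun l => Vn V l ∧ x ≤ (l : ℝ)), (l : ℝ) ^ (-(1 / 2 : ℝ) - dd) * (((m / l : ℕ) : ℝ))⁻¹

/-- the product of the `L`-part of `n` and of `n₀ / rad n₀`, `n₀` the complementary part -/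
noncomputable def QL (L : Finset ℕ) (n : ℕ) : ℝ :=
  ∏ p ∈ n.primeFactors, if p ∈ L then (p : ℝ) ^ (n.factorization p) else (p : ℝ) ^ (n.factorization p - 1)

/-- the conditional expectation of `∑_{a ∈ A} c_a 1[S_a ⊆ V]` given `L ⊆ V` -/
noncomputable def Psi {ι : Type} (ρ : ℕ → ℝ) (A : Finset ι) (c : ι → ℝ) (S : ι → Finset ℕ) (L : Finset ℕ) : ℝ :=
  ∑ a ∈ A, c a * ∏ p ∈ S a \ L, ρ p

/-- `∑_{a ∈ A} c_a 1[S_a ⊆ V]` -/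
noncomputable def ZZ {ι : Type} (A : Finset ι) (c : ι → ℝ) (S : ι → Finset ℕ) (V : ℕ → Bool) : ℝ :=
  ∑ a ∈ A, if ∀ p ∈ S a, V p = true then c a else 0

/-! ### the environment -/

/-- the primes in `(2^(5i/13), 2^(0.385 i)]` -/
noncomputable def VR (i : ℕ) : Finset ℕ := (range (2 ^ i + 1)).filter
  (fun v => v.Prime ∧ (2 : ℝ) ^ (5 / 13 * (i : ℝ)) < v ∧ (v : ℝ) ≤ (2 : ℝ) ^ (0.385 * (i : ℝ)))

/-- the light primes `q` with `v q` in the cell `(i, k)` -/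
noncomputable def LqD (δ : ℝ) (Lt : ℕ → ℕ → Prop) (i k v : ℕ) : Finset ℕ :=
  (range (2 ^ (i + 1) + 1)).filter (fun q => q.Prime ∧ Lt i q ∧ v * q ∈ cell δ i k)

/-- the union of some cells of scale `i` -/
noncomputable def ActD (δ : ℝ) (i : ℕ) (B : Finset ℕ) : Finset ℕ := B.biUnion (cell δ i)

/-- the squarefree `2^(0.24 i)`-rough numbers of a cell which are not primes -/
noncomputable def H2D (δ : ℝ) (i k : ℕ) : Finset ℕ :=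
  (cell δ i k).filter (fun n => Squarefree n ∧ Rough ((2 : ℝ) ^ (0.24 * (i : ℝ))) n ∧ ¬ n.Prime)

/-- the deterministic data: bad cells of the first and of the second kind, partners `pi`, light primes `Lt`,
usable multipliers `Us` -/
structure KEnv where
  δ : ℝ
  cU : ℝ
  cu : ℝ
  cq : ℝ
  cH : ℝ
  CB : ℝ
  B0 : ℕ
  i₁ : ℕ
  B1 : ℕ → Finset ℕ
  B2 : ℕ → Finset ℕ
  pi : ℕ → ℕ → ℕ
  Lt : ℕ → ℕ → Prop
  Us : ℕ → ℕ → Finset ℕ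
  hδ : 0 < δ
  hδ' : δ ≤ 1 / 10 ^ 24
  hcU : 0 < cU
  hcu : 0 < cu
  hcq : 0 < cq
  hcH : 0 < cH
  hCB : 1 ≤ CB
  hi₁ : 1000 ≤ i₁
  sub : ∀ i : ℕ, ∀ k ∈ B1 i ∪ B2 i, k < nc δ i
  disj : ∀ i : ℕ, Disjoint (B1 i) (B2 i)
  good : ∀ i : ℕ, i₁ ≤ i → ∀ k : ℕ, k < nc δ i → k ∉ B1 i ∪ B2 i →
    cU * hh δ i / i ≤ (((cell δ i k).filter Nat.Prime).card : ℝ)
  card1 : ∀ i : ℕ, i₁ ≤ i → ((B1 i).card : ℝ) ≤ (2 : ℝ) ^ (0.306 * (i : ℝ))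
  card2 : ∀ i : ℕ, i₁ ≤ i → ((B2 i).card : ℝ) ≤ (2 : ℝ) ^ (0.1165 * (i : ℝ))
  pi_good : ∀ i : ℕ, i₁ ≤ i → ∀ k ∈ B1 i, pi i k < nc δ i ∧ pi i k ∉ B1 i ∪ B2 i
  pi_near : ∀ i : ℕ, i₁ ≤ i → ∀ k ∈ B1 i, |(k : ℝ) - (pi i k : ℝ)| * hh δ i ≤ (2 : ℝ) ^ (0.57 * (i : ℝ))
  pi_fib : ∀ i : ℕ, i₁ ≤ i → ∀ k' : ℕ, ((B1 i).filter (fun k => pi i k = k')).card ≤ B0
  us_sub : ∀ i : ℕ, i₁ ≤ i → ∀ k ∈ B1 i, Us i k ⊆ VR i
  us_sum : ∀ i : ℕ, i₁ ≤ i → ∀ k ∈ B1 i, cu ≤ ∑ v ∈ Us i k, 1 / (v : ℝ)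
  us_q : ∀ i : ℕ, i₁ ≤ i → ∀ k ∈ B1 i, ∀ v ∈ Us i k,
    cq * hh δ i / (v * i) ≤ ((LqD δ Lt i k v).card : ℝ) ∧
    cq * hh δ i / (v * i) ≤ ((LqD δ Lt i (pi i k) v).card : ℝ)
  light : ∀ i : ℕ, i₁ ≤ i → ∀ q : ℕ, Lt i q →
    (((VR i).filter (fun v => v * q ∈ ActD δ i (B1 i ∪ (B1 i).image (pi i)))).card : ℝ) ≤
      (2 : ℝ) ^ ((5 / 26 - 1 / 2000) * (i : ℝ))
  host2 : ∀ i : ℕ, i₁ ≤ i → ∀ k ∈ B2 i, cH * hh δ i / i ≤ ((H2D δ i k).card : ℝ)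
  btr : ∀ i : ℕ, i₁ ≤ i → ∀ a L : ℕ, (2 : ℝ) ^ (0.1 * (i : ℝ)) ≤ L →
    (((Ioc a (a + L)).filter (fun n => Rough ((2 : ℝ) ^ (0.24 * (i : ℝ))) n)).card : ℝ) ≤ CB * L / i

namespace KEnv

variable (E : KEnv)

/-- the amplitude of the hosts -/
noncomputable def al : ℝ := 1 / (64 * ((E.B0 : ℝ) + 1))

/-- the light primes `q` with `v q` in the cell `(i, k)` -/
noncomputable def Lq (i k v : ℕ) : Finset ℕ := LqD E.δ E.Lt i k v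

/-- the cells of the dipoles -/
noncomputable def Act1 (i : ℕ) : Finset ℕ := ActD E.δ i (E.B1 i ∪ (E.B1 i).image (E.pi i))

/-- the bad cells of the second kind -/
noncomputable def Act2 (i : ℕ) : Finset ℕ := ActD E.δ i (E.B2 i)

/-- the family of pairs (multiplier, host prime) of the first kind -/
noncomputable def Fam1 (i : ℕ) : Finset (ℕ × ℕ) :=
  ((VR i) ×ˢ (range (2 ^ (i + 1) + 1))).filter
    (fun u => u.2.Prime ∧ E.Lt i u.2 ∧ u.1 * u.2 ∈ E.Act1 i)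

/-- the family of pairs (multiplier, host prime) of the second kind -/
noncomputable def Fam2 (i : ℕ) : Finset (ℕ × ℕ) :=
  ((range (2 ^ (i + 1) + 1)) ×ˢ (range (2 ^ (i + 1) + 1))).filter
    (fun u => u.2.Prime ∧ lp (u.1 * u.2) = u.2 ∧ ∃ k ∈ E.B2 i, u.1 * u.2 ∈ H2D E.δ i k)

/-- both families -/
noncomputable def Fam (i : ℕ) : Finset (ℕ × ℕ) := E.Fam1 i ∪ E.Fam2 i

/-- upper bound (up to constants) for the value at a host prime that belongs to the multiplier `m` -/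
noncomputable def TT (i m : ℕ) : ℝ := ww E.δ i * (m : ℝ) ^ (1 + dd - d1) * i / hh E.δ i

/-- scale of `n`: `n ∈ (2^(sc n), 2^(sc n + 1)]` -/
def sc (n : ℕ) : ℕ := Nat.log 2 (n - 1)

/-- index of the cell containing `n` -/
noncomputable def kx (n : ℕ) : ℕ := (n - 1 - 2 ^ sc n) / hh E.δ (sc n)

/-- the values at the control primes -/
noncomputable def gu (j p : ℕ) : ℝ :=
  if p.Prime ∧ 2 ^ j < p ∧ E.kx p ∉ E.B1 (sc p) ∪ E.B2 (sc p) then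
    ww E.δ (sc p) / (((cell E.δ (sc p) (E.kx p)).filter Nat.Prime).card : ℝ) else 0

variable (V : ℕ → Bool)

/-- normalisation of the dipoles -/
noncomputable def Om1 (i k : ℕ) : ℝ := ∑ v ∈ (E.Us i k).filter (fun v => V v = true), (v : ℝ) ^ (-(1 / 2 : ℝ) - d1)

/-- normalisation of the monopoles -/
noncomputable def Om2 (i k : ℕ) : ℝ :=
  ∑ n ∈ (H2D E.δ i k).filter (fun n => Vn V (n / lp n)), ((n / lp n : ℕ) : ℝ) ^ (1 / 2 - d1)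

/-- the dipole of the bad cell `(i, k)` of the first kind -/
noncomputable def G1 (i k q : ℕ) : ℝ :=
  E.al * ww E.δ i * ∑ v ∈ (E.Us i k).filter (fun v => V v = true), (v : ℝ) ^ (dd - d1) / E.Om1 V i k *
    ((if q ∈ E.Lq i k v then 1 / ((E.Lq i k v).card : ℝ) else 0) -
      (if q ∈ E.Lq i (E.pi i k) v then 1 / ((E.Lq i (E.pi i k) v).card : ℝ) else 0))

/-- the monopole of the bad cell `(i, k)` of the second kind -/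
noncomputable def G2 (i k q : ℕ) : ℝ :=
  E.al * ww E.δ i * ∑ n ∈ (H2D E.δ i k).filter (fun n => lp n = q ∧ Vn V (n / q)),
    ((n / q : ℕ) : ℝ) ^ (1 + dd - d1) / E.Om2 V i k

/-- the scales that may use the host prime `q` -/
def hs (j q : ℕ) : Finset ℕ := (range (4 * Nat.log 2 q + 4)).filter (fun i => j ≤ i)

/-- majorant of the dipole of `(i, k)` at `q` -/
noncomputable def G1a (i k q : ℕ) : ℝ :=
  E.al * ww E.δ i * ∑ v ∈ (E.Us i k).filter (fun v => V v = true), (v : ℝ) ^ (dd - d1) / E.Om1 V i k *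
    ((if q ∈ E.Lq i k v then 1 / ((E.Lq i k v).card : ℝ) else 0) +
      (if q ∈ E.Lq i (E.pi i k) v then 1 / ((E.Lq i (E.pi i k) v).card : ℝ) else 0))

/-- majorant of the dipoles of scale `i` at `q` -/
noncomputable def H1 (i q : ℕ) : ℝ := ∑ k ∈ E.B1 i, E.G1a V i k q

/-- the monopoles of scale `i` at `q` (they are nonnegative) -/
noncomputable def H2 (i q : ℕ) : ℝ := ∑ k ∈ E.B2 i, E.G2 V i k q

/-- absolute value of all hosts at `q` -/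
noncomputable def gh (j q : ℕ) : ℝ := ∑ i ∈ hs j q, (E.H1 V i q + E.H2 V i q)

/-- absolute value of all hosts at `q`, without the far dipoles, seen from scale `I` -/
noncomputable def ghn (j I q : ℕ) : ℝ :=
  ∑ i ∈ hs j q, ((if (i : ℝ) ≤ 1.166 * I then E.H1 V i q else 0) + E.H2 V i q)

/-- the majorant of the whole function -/
noncomputable def AA (j n : ℕ) : ℝ := LP (fun p => aV V p + 2 * (E.gu j p + E.gh V j p)) n

/-- the values at the primes, for the unknown `z` -/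
noncomputable def fp (j : ℕ) (z : ℕ × ℕ → ℝ) (p : ℕ) : ℝ :=
  aV V p + z (sc p, E.kx p) * E.gu j p +
    ∑ i ∈ hs j p, (∑ k ∈ E.B1 i, z (i, k) * E.G1 V i k p + ∑ k ∈ E.B2 i, z (i, k) * E.G2 V i k p)

/-- the part of `fp` without the far dipoles, seen from scale `I` -/
noncomputable def fn (j I : ℕ) (z : ℕ × ℕ → ℝ) (p : ℕ) : ℝ :=
  aV V p + z (sc p, E.kx p) * E.gu j p +
    ∑ i ∈ hs j p, ((if (i : ℝ) ≤ 1.166 * I then ∑ k ∈ E.B1 i, z (i, k) * E.G1 V i k p else 0) +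
      ∑ k ∈ E.B2 i, z (i, k) * E.G2 V i k p)

/-- the far dipoles, seen from scale `I` -/
noncomputable def fr (j I : ℕ) (z : ℕ × ℕ → ℝ) (p : ℕ) : ℝ :=
  ∑ i ∈ hs j p, (if (i : ℝ) ≤ 1.166 * I then 0 else ∑ k ∈ E.B1 i, z (i, k) * E.G1 V i k p)

/-- the majorant without the far dipoles -/
noncomputable def AN (j I n : ℕ) : ℝ := LP (fun p => aV V p + 2 * (E.gu j p + E.ghn V j I p)) n

/-- the value of the dipoles of scale `i` that belongs to the pair `u = (v, q)` -/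
noncomputable def g1 (i : ℕ) (u : ℕ × ℕ) : ℝ :=
  ∑ k ∈ E.B1 i, if u.1 ∈ E.Us i k ∧ V u.1 = true then
    E.al * ww E.δ i * ((u.1 : ℝ) ^ (dd - d1) / E.Om1 V i k *
      ((if u.2 ∈ E.Lq i k u.1 then 1 / ((E.Lq i k u.1).card : ℝ) else 0) +
        (if u.2 ∈ E.Lq i (E.pi i k) u.1 then 1 / ((E.Lq i (E.pi i k) u.1).card : ℝ) else 0))) else 0

/-- the value of the monopoles of scale `i` that belongs to the pair `u = (m, q)` -/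
noncomputable def g2 (i : ℕ) (u : ℕ × ℕ) : ℝ :=
  ∑ k ∈ E.B2 i, if u.1 * u.2 ∈ H2D E.δ i k ∧ lp (u.1 * u.2) = u.2 ∧ Vn V u.1 then
    E.al * ww E.δ i * ((u.1 : ℝ) ^ (1 + dd - d1) / E.Om2 V i k) else 0

/-- the weight of the cell `(i, k)` -/
noncomputable def WC (i k : ℕ) : ℝ := if k ∈ E.B1 i ∪ E.B2 i then E.al * ww E.δ i else ww E.δ i

/-- the completely multiplicative function -/
noncomputable def ff (j : ℕ) (z : ℕ × ℕ → ℝ) (n : ℕ) : ℝ := LP (E.fp V j z) n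

end KEnv

/-! ### the events -/

/-- (ESV) the sum over the random set is small -/
def EvE (η : ℝ) (V : ℕ → Bool) : Prop := ∀ N : ℕ,
  ∑ v ∈ (range N).filter (fun v => V v = true), (v : ℝ) ^ (-(1 / 2 : ℝ) - dd) ≤ η

/-- (VR) numbers with all prime factors in `V` in short intervals -/
def EvR (j : ℕ) (V : ℕ → Bool) : Prop := ∀ i a b : ℕ, j ≤ 2 * i → 2 ^ i ≤ a → a ≤ b → b ≤ 2 ^ (i + 2) →
  (b : ℝ) - a ≤ (2 : ℝ) ^ ((i : ℝ) / 2) →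
  ∑ n ∈ (Ioc a b).filter (Rg j), SV V n ≤
    (2 : ℝ) ^ (e0 * i) * (((b : ℝ) - a) / 2 ^ i + (2 : ℝ) ^ (-(1 / 2 + 1 / 10 ^ 5) * (i : ℝ)))

/-- (VRe) the same with a large `V`-part -/
def EvL (j : ℕ) (V : ℕ → Bool) : Prop := ∀ i a b : ℕ, j ≤ 2 * i → 2 ^ i ≤ a → a ≤ b → b ≤ 2 ^ (i + 2) →
  (b : ℝ) - a ≤ (2 : ℝ) ^ ((i : ℝ) / 2) →
  ∑ n ∈ (Ioc a b).filter (Rg j), SVe V ((2 : ℝ) ^ ((i : ℝ) / 100)) n ≤
    (2 : ℝ) ^ (e0 * i) * (((b : ℝ) - a) / 2 ^ i * (2 : ℝ) ^ (-(1 / 10 ^ 18) * (i : ℝ)) +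
      (2 : ℝ) ^ (-(1 / 2 + 1 / 10 ^ 5) * (i : ℝ)))

/-- (Z) every prime is a host prime of few multipliers -/
def EvZ (E : KEnv) (j : ℕ) (V : ℕ → Bool) : Prop := ∀ i q : ℕ, j ≤ i →
  (((E.Fam i).filter (fun u => u.2 = q ∧ Vn V u.1)).card : ℝ) ≤ (2 : ℝ) ^ (e0 * i)

/-- (M) the mass of the host primes -/
def EvM (E : KEnv) (j : ℕ) (V : ℕ → Bool) : Prop := ∀ i : ℕ, j ≤ i →
  ∑ u ∈ (E.Fam i).filter (fun u => Vn V u.1), E.TT i u.1 ≤ (2 : ℝ) ^ (-((i : ℝ) / 4000))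

/-- (O1) normalisation of the dipoles -/
def EvO1 (E : KEnv) (j : ℕ) (V : ℕ → Bool) : Prop := ∀ i : ℕ, j ≤ i → ∀ k ∈ E.B1 i, E.cu / 2 ≤ E.Om1 V i k

/-- (O2) normalisation of the monopoles -/
def EvO2 (E : KEnv) (j : ℕ) (V : ℕ → Bool) : Prop := ∀ i : ℕ, j ≤ i → ∀ k ∈ E.B2 i,
  E.cH / 2 * hh E.δ i / i ≤ E.Om2 V i k

/-- (REG1) regularity of the dipoles in short intervals -/
def EvG1 (E : KEnv) (CR : ℝ) (j : ℕ) (V : ℕ → Bool) : Prop := ∀ i a b : ℕ, j ≤ i → 2 ^ i ≤ a → b ≤ 2 ^ (i + 1) →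
  (2 : ℝ) ^ (0.34 * (i : ℝ)) ≤ (b : ℝ) - a →
  ∑ u ∈ (E.Fam1 i).filter (fun u => Vn V u.1 ∧ u.1 * u.2 ∈ Ioc a b), (u.1 : ℝ) ^ (1 / 2 - d1) ≤
    CR * ((b : ℝ) - a) / i

/-- (REG2) regularity of the monopoles in short intervals -/
def EvG2 (E : KEnv) (CR : ℝ) (j : ℕ) (V : ℕ → Bool) : Prop := ∀ i a b : ℕ, j ≤ i → 2 ^ i ≤ a → b ≤ 2 ^ (i + 1) →
  (2 : ℝ) ^ (0.43 * (i : ℝ)) ≤ (b : ℝ) - a →
  ∑ u ∈ (E.Fam2 i).filter (fun u => Vn V u.1 ∧ u.1 * u.2 ∈ Ioc a b), (u.1 : ℝ) ^ (1 / 2 - d1) ≤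
    CR * ((b : ℝ) - a) / i

/-- the load on the interval `(a, b]` of scale `I` of the pairs of `F` (of scale `i`) that satisfy `c` -/
noncomputable def Ld (E : KEnv) (V : ℕ → Bool) (F : Finset (ℕ × ℕ)) (j i I a b : ℕ) (c : ℕ → ℕ × ℕ → Prop) : ℝ :=
  ∑ n ∈ (Ioc a b).filter (Rg j), ∑ u ∈ F.filter (fun u => Vn V u.1 ∧ u.2 ∣ n ∧
    (2 : ℝ) ^ ((I : ℝ) / 10 ^ 6) ≤ (u.2 : ℝ) ∧ c n u), E.TT i u.1 * SV V (n / u.2)

/-- (HN) loads of the pairs `(m, q)`, `q ∣ n`, `m ∤ n / q` -/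
def EvHN (E : KEnv) (j : ℕ) (V : ℕ → Bool) : Prop := ∀ I a b i : ℕ, j ≤ I → j ≤ i → 2 ^ I ≤ a → a ≤ b →
  b ≤ 2 ^ (I + 1) → (b : ℝ) - a ≤ (2 : ℝ) ^ ((I : ℝ) / 2) →
  ((i : ℝ) ≤ 1.166 * I → Ld E V (E.Fam1 i) j i I a b (fun n u => ¬ u.1 ∣ n / u.2) ≤
    (2 : ℝ) ^ (-(1 / 2 + 3 / 10 ^ 14) * (I : ℝ))) ∧
  Ld E V (E.Fam2 i) j i I a b (fun n u => ¬ u.1 ∣ n / u.2) ≤ (2 : ℝ) ^ (-(1 / 2 + 3 / 10 ^ 14) * (I : ℝ))

/-- (HD) loads of the pairs `(m, q)`, `m q ∣ n`, with a large cofactor -/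
def EvHD (E : KEnv) (j : ℕ) (V : ℕ → Bool) : Prop := ∀ I a b i : ℕ, j ≤ I → j ≤ i → 2 ^ I ≤ a → a ≤ b →
  b ≤ 2 ^ (I + 1) → (b : ℝ) - a ≤ (2 : ℝ) ^ ((I : ℝ) / 2) →
  Ld E V (E.Fam1 i) j i I a b (fun n u => u.1 ∣ n / u.2 ∧ (2 : ℝ) ^ (0.31 * (i : ℝ)) ≤ ((n / u.2 / u.1 : ℕ) : ℝ)) ≤
    (2 : ℝ) ^ (-(1 / 2 + 3 / 10 ^ 14) * (I : ℝ)) ∧
  Ld E V (E.Fam2 i) j i I a b (fun n u => u.1 ∣ n / u.2 ∧ (2 : ℝ) ^ (0.12 * (i : ℝ)) ≤ ((n / u.2 / u.1 : ℕ) : ℝ)) ≤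
    (2 : ℝ) ^ (-(1 / 2 + 3 / 10 ^ 14) * (I : ℝ))

/-- the load of the far dipoles of scale `i` at the end point `e` of scale `I` -/
noncomputable def FT (E : KEnv) (V : ℕ → Bool) (j i I e : ℕ) : ℝ :=
  ∑ m ∈ (Icc 1 ⌊(2 : ℝ) ^ (0.3 * (I : ℝ))⌋₊).filter (Rg j), SV V m *
    ∑ v ∈ (VR i).filter (fun v => V v = true), (v : ℝ) ^ (dd - d1) * ww E.δ i *
      (((E.B1 i).filter (fun k => v ∈ E.Us i k ∧
        |((2 : ℝ) ^ i + k * hh E.δ i) * m - v * e| ≤ (2 : ℝ) ^ (0.57 * (i : ℝ) + 2) * m)).card : ℝ)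

/-- (T) far dipoles -/
def EvT (E : KEnv) (j : ℕ) (V : ℕ → Bool) : Prop := ∀ I e i : ℕ, j ≤ I → 2 ^ I ≤ e → e ≤ 2 ^ (I + 1) →
  1.166 * (I : ℝ) < i → i ≤ 2 * I → FT E V j i I e ≤ (2 : ℝ) ^ (-(1 / 2 + 1 / 1000) * (I : ℝ))

/-- all events -/
structure Ev (E : KEnv) (CR η : ℝ) (j : ℕ) (V : ℕ → Bool) : Prop where
  sub : ∀ p : ℕ, V p = true → p.Prime ∧ 2 ^ (j / 10) ≤ p
  esv : EvE η V
  vr : EvR j V
  vl : EvL j V
  z : EvZ E j V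
  m : EvM E j V
  o1 : EvO1 E j V
  o2 : EvO2 E j V
  g1 : EvG1 E CR j V
  g2 : EvG2 E CR j V
  hn : EvHN E j V
  hd : EvHD E j V
  t : EvT E j V

end Pool.Agent.Q18.KZ
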