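import Pool.Agent.Q18.KZ.Defs
import Pool.Agent.H376R2.MR.Defs

/-!
# Project KZ (helper18), first statement file: probability and counting of integers with large square-full parts

Every statement is a `Prop` with a complete proof in its docstring. Constants `C` may change from line to line.
-/

set_option autoImplicit false

namespace Pool.Agent.Q18.KZ

open Finset Filter Topology MeasureTheory
open scoped Classical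
open Pool.Agent.W76.MO (hh nc cell lp Rough)
open Q236.CM (LP)

/-! ### probability -/

/-- **KZ-PS**: independent indicators exist. Proof. `P = Measure.infinitePi (fun p => ν_p)` with
`ν_p = ENNReal.ofReal (ρ p) • dirac true + ENNReal.ofReal (1 - ρ p) • dirac false`, a probability measure on `Bool`.
The coordinates are independent (`ProbabilityTheory.iIndepFun_infinitePi` or the finite dimensional distributions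
`infinitePi_pi`, `infinitePi_map_restrict`), so the integral of the product of finitely many functions of different
coordinates is the product of the integrals `∫ φ p dν_p = ρ p φ p true + (1 - ρ p) φ p false`. -/
def S_PS : Prop := ∀ ρ : ℕ → ℝ, (∀ p, 0 ≤ ρ p ∧ ρ p ≤ 1) → ∃ P : Measure (ℕ → Bool), IsRand ρ P

/-- **KZ-MOM**: the moment inequality. Proof. `∫ 1[S ⊆ V] dP = ∏_{p ∈ S} ρ p` (`IsRand` with `φ p true = 1`, `φ p false = 0`; all functions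
are bounded and depend on finitely many coordinates, so everything is measurable and integrable). Expanding the power,
`∫ (ZZ)^k = ∑_{a_1, …, a_k ∈ A} c_{a_1} ⋯ c_{a_k} ∏_{p ∈ S_{a_1} ∪ ⋯ ∪ S_{a_k}} ρ p`. With `L_r = S_{a_1} ∪ ⋯ ∪ S_{a_{r-1}}` the
product over the union is `∏_{r=1}^k ∏_{p ∈ S_{a_r} \ L_r} ρ p`. Sum first over `a_k`, then over `a_{k-1}`, …: every
inner sum is `Psi ρ A c S L_r ≤ B`, `L_r` being the union of `r - 1 < k` sets. (Induction on `k`, for all functions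
`1[L ⊆ V]`: `∫ 1[L ⊆ V] ZZ^k ≤ (∏_{p∈L} ρ p) B^k` if `L` is the union of `s` sets and `Psi ≤ B` for unions of less than `s + k`
sets.) The second assertion is Markov's inequality for `ZZ^k ≥ 0`. -/
def S_MOM : Prop := ∀ (ρ : ℕ → ℝ) (P : Measure (ℕ → Bool)), (∀ p, 0 ≤ ρ p ∧ ρ p ≤ 1) → IsRand ρ P →
  ∀ (ι : Type) (A : Finset ι) (c : ι → ℝ) (S : ι → Finset ℕ) (k : ℕ) (B : ℝ), (∀ a ∈ A, 0 ≤ c a) → 0 ≤ B →
  (∀ L : Finset ℕ, (∃ T : Finset ι, T ⊆ A ∧ T.card < k ∧ L = T.biUnion S) → Psi ρ A c S L ≤ B) →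
  (∫ ω, ZZ A c S ω ^ k ∂P ≤ B ^ k) ∧
  ∀ t : ℝ, 0 < t → P {ω | t < ZZ A c S ω} ≤ ENNReal.ofReal ((B / t) ^ k)

/-- **KZ-TB** (from MOM): tails with a power saving. Proof. Let `k = ⌈10/ε⌉`; by MOM (`T.card < k` implies
`T.card < 10/ε + 1`) every `r ∈ R i` has `P(ZZ > t) ≤ 2^{-ε k i} ≤ 2^{-10 i}`; countable subadditivity: the total is at most
`∑_{i ≥ i0} 2^{4i - 10 i} ≤ 2 · 2^{-60} ≤ 1/20`. -/
def S_TB : Prop := ∀ ε : ℝ, 0 < ε → ∀ (ρ : ℕ → ℝ) (P : Measure (ℕ → Bool)), (∀ p, 0 ≤ ρ p ∧ ρ p ≤ 1) → IsRand ρ P →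
  ∀ (ι κ : Type) (R : ℕ → Finset κ) (A : κ → Finset ι) (c : κ → ι → ℝ) (S : κ → ι → Finset ℕ) (t : κ → ℝ) (i0 : ℕ),
  10 ≤ i0 → (∀ i, i0 ≤ i → (R i).card ≤ 2 ^ (4 * i)) →
  (∀ i, i0 ≤ i → ∀ r ∈ R i, 0 < t r ∧ (∀ a ∈ A r, 0 ≤ c r a) ∧
    ∀ L : Finset ℕ, (∃ T : Finset ι, T ⊆ A r ∧ (T.card : ℝ) < 10 / ε + 1 ∧ L = T.biUnion (S r)) →
      Psi ρ (A r) (c r) (S r) L ≤ (2 : ℝ) ^ (-(ε * i)) * t r) →
  P {V | ∃ i, i0 ≤ i ∧ ∃ r ∈ R i, t r < ZZ (A r) (c r) (S r) V} ≤ 1 / 20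

/-- **KZ-TC** (from MOM): tails with a constant factor. Proof. As TB, with `k = 5 i` and `B = t/2`:
`P(ZZ > t) ≤ 2^{-5 i}`, total `≤ ∑_{i ≥ i0} 2^{-i} ≤ 2^{1 - 10}`. -/
def S_TC : Prop := ∀ (ρ : ℕ → ℝ) (P : Measure (ℕ → Bool)), (∀ p, 0 ≤ ρ p ∧ ρ p ≤ 1) → IsRand ρ P →
  ∀ (ι κ : Type) (R : ℕ → Finset κ) (A : κ → Finset ι) (c : κ → ι → ℝ) (S : κ → ι → Finset ℕ) (t : κ → ℝ) (i0 : ℕ),
  10 ≤ i0 → (∀ i, i0 ≤ i → (R i).card ≤ 2 ^ (4 * i)) →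
  (∀ i, i0 ≤ i → ∀ r ∈ R i, 0 < t r ∧ (∀ a ∈ A r, 0 ≤ c r a) ∧
    ∀ L : Finset ℕ, (∃ T : Finset ι, T ⊆ A r ∧ T.card < 5 * i ∧ L = T.biUnion (S r)) →
      Psi ρ (A r) (c r) (S r) L ≤ t r / 2) →
  P {V | ∃ i, i0 ≤ i ∧ ∃ r ∈ R i, t r < ZZ (A r) (c r) (S r) V} ≤ 1 / 20

/-- **KZ-CHL**: Chernoff's bound for the lower tail. Proof. Let `Z = ∑_{p ∈ S, ω p} a p`, `m = ∑ ρ p a p`. By `IsRand`,
`∫ e^{-Z/M} = ∏ (1 - ρ p (1 - e^{-a p/M})) ≤ exp (- ∑ ρ p (1 - e^{-a p/M}))`, and `1 - e^{-u} ≥ (1 - 1/e) u ≥ 0.63 u` for `0 ≤ u ≤ 1`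
(concavity), so this is `≤ exp (-0.63 m/M)`. Markov: `P(Z < m/2) ≤ e^{m/(2M)} e^{-0.63 m/M} ≤ e^{-m/(8M)}`. -/
def S_CHL : Prop := ∀ (ρ : ℕ → ℝ) (P : Measure (ℕ → Bool)), (∀ p, 0 ≤ ρ p ∧ ρ p ≤ 1) → IsRand ρ P →
  ∀ (S : Finset ℕ) (a : ℕ → ℝ) (M : ℝ), 0 < M → (∀ p ∈ S, 0 ≤ a p ∧ a p ≤ M) →
  P {ω | ∑ p ∈ S.filter (fun p => ω p = true), a p < (∑ p ∈ S, ρ p * a p) / 2} ≤
    ENNReal.ofReal (Real.exp (-((∑ p ∈ S, ρ p * a p) / (8 * M))))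

/-- **KZ-SM**: lower tail by the second moment. Proof. `m = ∫ ZZ = ∑_a c_a ∏_{S_a} ρ`, `∫ ZZ² = ∑_{a,b} c_a c_b ∏_{S_a ∪ S_b} ρ`;
Chebyshev: `P(ZZ < m/2) ≤ ∫ (ZZ - m)² / (m/2)²`. -/
def S_SM : Prop := ∀ (ρ : ℕ → ℝ) (P : Measure (ℕ → Bool)), (∀ p, 0 ≤ ρ p ∧ ρ p ≤ 1) → IsRand ρ P →
  ∀ (ι : Type) (A : Finset ι) (c : ι → ℝ) (S : ι → Finset ℕ), (∀ a ∈ A, 0 ≤ c a) →
  0 < ∑ a ∈ A, c a * ∏ p ∈ S a, ρ p →
  P {ω | ZZ A c S ω < (∑ a ∈ A, c a * ∏ p ∈ S a, ρ p) / 2} ≤ ENNReal.ofReal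
    (4 * (∑ a ∈ A, ∑ b ∈ A, c a * c b * (∏ p ∈ S a ∪ S b, ρ p - (∏ p ∈ S a, ρ p) * ∏ p ∈ S b, ρ p)) /
      (∑ a ∈ A, c a * ∏ p ∈ S a, ρ p) ^ 2)

/-! ### the counting inequality (RC) -/

/-- the radical -/
def rd (n : ℕ) : ℕ := ∏ p ∈ n.primeFactors, p

/-- **KZ-RAD**: few integers have a small radical. Proof. For `0 < ε ≤ 1`:
`#{n ≤ N : rd n ≤ X} ≤ ∑_{n ≤ N} (X / rd n) (N/n)^ε ≤ X N^ε ∑_{n ≤ N} 1/(rd n · n^ε) ≤ X N^ε ∏_{p ≤ N} (1 + p^{-1-ε}/(1 - p^{-ε}))`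
(multiplicativity of `n ↦ 1/(rd n · n^ε)`; the Euler product over the primes `≤ N` majorises the sum), and the product is at most
`exp (∑_p p^{-1-ε} / (1 - 2^{-ε})) < ∞`. -/
def S_RAD : Prop := ∀ ε : ℝ, 0 < ε → ∃ C : ℝ, 1 ≤ C ∧ ∀ (N : ℕ) (X : ℝ), 1 ≤ N → 0 ≤ X →
  (((Icc 1 N).filter (fun n => (rd n : ℝ) ≤ X)).card : ℝ) ≤ C * X * (N : ℝ) ^ ε

/-- **KZ-LSW**: the large sieve at integer frequencies. Proof. Let `K ≥ 1`. As in `Pool.Agent.Q240.KS.S_LSD`: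
`∑_{|k| < K} |∑_u b_u e^{i k θ u}|² ≤ 2 ∑_{|k| < 2K} (1 - |k|/(2K)) |∑_u b_u e^{ikθ u}|² = 2 ∑_{u,u'} b_u conj(b_{u'}) Fj (2K) (θ u - θ u')
≤ 2 (max_u ∑_{u'} Fj (2K) (θ u - θ u')) ∑ |b_u|²`, and by `0 ≤ Fj (2K) ≤ 2K`, `Fj (2K) x ≤ π²/(2K x²)` for `0 < |x| ≤ π` (files
`Pool/Agent/H376R2/MR/Fej.lean`) and the separation the row sums are `≤ C (K + 1/σ)`. (`Pool.Agent.Q240.KS` contains a proof of
LSD; this is the dual form, and its first half.) -/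
def S_LSW : Prop := ∃ C : ℝ, 1 ≤ C ∧ ∀ (K : ℕ) (σ v : ℝ) (U : Finset ℕ) (θ : ℕ → ℝ) (b : ℕ → ℂ), 1 ≤ K → 0 < σ → σ ≤ 1 →
  (∀ u ∈ U, v ≤ θ u ∧ θ u ≤ v + 2) → (∀ u ∈ U, ∀ u' ∈ U, u ≠ u' → σ ≤ |θ u - θ u'|) →
  ∑ k ∈ Pool.Agent.H376R2.MR.FK K, ‖∑ u ∈ U, b u * Complex.exp (((k : ℝ) * θ u : ℝ) * Complex.I)‖ ^ 2 ≤
    C * (K + 1 / σ) * ∑ u ∈ U, ‖b u‖ ^ 2

/-- **KZ-MO**: moments of `∑_{t ∼ T} t^{iak}` (from LSW). Proof. Let `A(k)` be the inner sum. `A(k)^m = ∑_u d(u) e^{i a k log u}` over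
the integers `u` in `(T^m, (2T)^m]`, `0 ≤ d(u) ≤ (number of ordered factorisations into m factors) ≤ C T^{ε/2}` (divisor bound
`Pool/Agent/Helper112/Arith.lean : divisor_bound`). The points `a log u` are separated by `a/(2^m T^m) ≥ 1/(2^m T^m)` and lie in an interval of
length `a m log 2`; cut it into at most `a m + 1` windows of length `2`, use Cauchy-Schwarz and LSW on each:
`∑_{|k| < K} |A(k)|^{2m} ≤ C (K + 2^m T^m) T^{ε/2} · ∑_u d(u) · max d`, `∑_u d(u) = T^m`-bounded: `≤ C (K + T^m) T^{m+ε}`. -/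
def S_MO : Prop := ∀ (m a : ℕ) (ε : ℝ), 1 ≤ m → 1 ≤ a → 0 < ε → ∃ C : ℝ, 1 ≤ C ∧ ∀ (K T : ℕ) (W : Finset ℕ), 1 ≤ K → 1 ≤ T →
  W ⊆ Ioc T (2 * T) →
  ∑ k ∈ Pool.Agent.H376R2.MR.FK K, ‖∑ t ∈ W, Complex.exp (((k : ℝ) * (a * Real.log t) : ℝ) * Complex.I)‖ ^ (2 * m) ≤
    C * ((K : ℝ) + (T : ℝ) ^ m) * (T : ℝ) ^ m * (T : ℝ) ^ ε

/-- **KZ-AN**: lattice points near a monomial hypersurface (from MO). Proof. We may assume `K ≥ 2` (for `K = 1` all `T a = 1` and the count is `≤ 1`). Let `T_a = K^{β_a}`, so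
`∑ β_a ≤ 1`. For the `a` with `β_a < ε/(4A)` (in particular `T_a = 1`, where `t_a = 2` is the only choice) use the trivial bound `|A_a(k)| ≤ T_a ≤ K^{ε/(4A)}` below, total loss `K^{ε/4}`.
For the others (set `J`) let `m_a = ⌊1/β_a⌋ ≥ 1`; it is `≤ 4A/ε`; `⌊x⌋ ≥ x/2` for `x ≥ 1` gives `1/(2 m_a) ≤ β_a`, so `∑_{a ∈ J} 1/(2 m_a) ≤ 1`, and
`T_a^{m_a} ≤ K`. If `n = s ∏ t_a^{e_a} ∈ (x, x + L]` then `u = log n - log (x + L)` satisfies `|u| ≤ L/x ≤ 1/K`, so `Fj K u ≥ (4/π²) K`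
(statement `Pool.Agent.Q240.KS.S_FJL`, proved in the library), and `Fj ≥ 0` always. Hence, with `A_a(k) = ∑_{t ∈ (T_a, 2T_a]} t^{i e_a k}`,
`N ≤ (π²/(4K)) ∑_{t} Fj K (u(t)) = (π²/(4K)) Re ∑_{|k| < K} (1 - |k|/K) (s/(x+L))^{ik} ∏_a A_a(k) ≤ (3/K) ∑_{|k| < K} ∏_a |A_a(k)|`. By Hölder's
inequality with the exponents `2 m_a`, `a ∈ J` (and the constant function for the rest, as `∑ 1/(2m_a) ≤ 1`) and MO:
`N ≤ (3/K) K^{ε/4} (2K)^{1 - ∑ 1/(2m_a)} ∏_{a ∈ J} (C K T_a^{m_a} K^{ε'})^{1/(2m_a)} ≤ C K^{ε} ∏ T_a^{1/2}`. -/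
def S_AN : Prop := ∀ (A E : ℕ) (ε : ℝ), 0 < ε → ∃ C : ℝ, 1 ≤ C ∧ ∀ (K s x L : ℕ) (T e : Fin A → ℕ), 1 ≤ K → 1 ≤ s →
  1 ≤ x → (∀ a, 1 ≤ T a) → (∀ a, 1 ≤ e a ∧ e a ≤ E) → ∏ a, T a ≤ K → L * K ≤ x →
  (((Fintype.piFinset (fun a => Ioc (T a) (2 * T a))).filter
    (fun t : Fin A → ℕ => s * ∏ a : Fin A, t a ^ e a ∈ Ioc x (x + L))).card : ℝ) ≤
      C * (K : ℝ) ^ ε * Real.sqrt (((∏ a, T a : ℕ) : ℝ))

/-- **KZ-RC1**: integers with a small radical in short intervals (from AN, RAD). Proof. Let `A = ⌈4/ε⌉`. Every `n ≥ 1` is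
`n = s ∏_{a=1}^{A} t_a^a` with `t_a` the product of the primes that divide `n` exactly `a` times and `s` the part of `n` with exponents `> A`;
`rd n = rd s ∏ t_a`. Since `(rd s)^A ≤ s ≤ 2x`, by RAD there are at most `C (2x)^{1/A + ε/8} ≤ C x^{ε/2}` possible `s`. Let `J` be the set of the `a` with `t_a ≥ 2`
(at most `2^A` possibilities); for `a ∈ J` put `t_a ∈ (T_a, 2T_a]`, `T_a ≥ 1` a power of two: at most `(log₂(2x) + 1)^A ≤ C x^{ε/8}` choices of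
`(T_a)`, and `∏_{a ∈ J} T_a ≤ rd n ≤ R`, so `∏ T_a ≤ min (K, R)`; AN for the exponents in `J` gives `≤ C K^{ε/8} R^{1/2}` for each (`K ≤ x` if `L ≥ 1`;
for `L = 0` there is nothing to prove). -/
def S_RC1 : Prop := ∀ ε : ℝ, 0 < ε → ∃ C : ℝ, 1 ≤ C ∧ ∀ (x L K : ℕ) (R : ℝ), 1 ≤ x → 1 ≤ K → L * K ≤ x → 1 ≤ R → R ≤ K →
  (((Ioc x (x + L)).filter (fun n => (rd n : ℝ) ≤ R)).card : ℝ) ≤ C * (x : ℝ) ^ ε * Real.sqrt R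

/-- **KZ-RC** (from RAD, RC1): the counting inequality. Proof. Write `n = b w² c`, `b` (`w`) the product of the primes with exponent exactly 1 (2), `c` cube-full, pairwise
coprime. `rd n = b w rd c`, `c ≥ (rd c)³`. Split dyadically: `b ∼ B`, `w ∼ W`, `c ∼ G`, `rd c ∼ Q` (at most
`C (log y)^4` classes); `B W² G ≍ y`, `Q³ ≤ 8 G`. Since `(n/rd n)^{1/2} ≍ (y/(BWQ))^{1/2}`, we must show `N ≤ C y^ε (B W Q)^{1/2}` for the number `N` of the `n` in a class.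
By RAD the number of possible `c` is `≤ C Q y^ε`. The following bounds hold:
(a) for fixed `w`, at most `1 + L/w²` elements of `I` are divisible by `w²`: `N ≤ C W (1 + y^{1/2}/W²)`;
(b) for fixed `c`, at most `1 + L/c` elements: `N ≤ C y^ε Q (1 + y^{1/2}/G)`;
(c) for fixed `b, c`: the `w` with `b c w² ∈ (x, x+L]` lie in an interval of length `≤ L/(2 (x b c)^{1/2}) ≤ 1/2`: `N ≤ C y^ε B Q`.
Case 1: `W ≥ y^{1/4}`. (a) gives `N ≤ C W`, (c) gives `N ≤ C y^ε B Q`, and `min (W, BQ) ≤ (W B Q)^{1/2}`.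
Case 2: `W < y^{1/4}`, `G < y^{1/2}`. (a): `N ≤ C y^{1/2}/W`; (b): `N ≤ C y^ε Q y^{1/2}/G`. Now `(BWQ)^{1/2} ≍ (y Q/(W G))^{1/2}`. If `G ≤ W Q` then
`y^{1/2}/W ≤ (yQ/(WG))^{1/2}`; if `G ≥ W Q` then `Q y^{1/2}/G ≤ (y Q/(WG))^{1/2}`.
Case 3: `W < y^{1/4}`, `G ≥ y^{1/2}`. (b): `N ≤ C y^ε Q`. If `Q ≤ B W` then `Q ≤ (BWQ)^{1/2}`. If `Q > B W`: the radicals of the `n` in the class are `≤ R := 8 B W Q`, and
`R² ≤ C₁ y` because `y ≍ B W² G ≥ c B W² Q³ ≥ c (B W Q)²`. Let `K = ⌈(C₁ y)^{1/2}⌉`, cut `I` into at most `C` intervals of length `≤ x/K` and apply RC1: `N ≤ C y^ε R^{1/2}`. -/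
def S_RC : Prop := ∀ ε : ℝ, 0 < ε → ∃ C : ℝ, 1 ≤ C ∧ ∀ (y x L : ℕ), 1 ≤ y → y ≤ x → x ≤ 8 * y → L ^ 2 ≤ y →
  ∑ n ∈ Ioc x (x + L), Real.sqrt ((n : ℝ) / rd n) ≤ C * (y : ℝ) ^ (1 / 2 + ε)

/-- **KZ-LN**: few integers are composed of few large primes. Proof. Let `z = 2^(j/10)`. An integer `n ≤ 2^{i+3}` with all prime factors in `L` (all `≥ z`) is determined by
the multiset of its prime factors, of size at most `r = ⌊(i+3)/(j/10)⌋ ≤ 20 (i+3)/j`. The number of multisets of size `≤ r` from a set of `ℓ` elements is `C(ℓ + r, r)`, with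
`ℓ ≤ k (i+1)/j`; `C(a, b) ≤ 2^a`, so the number is at most `2^{(k + 60)(i+1)/j} ≤ 2^{ε (i+1)/2}` as soon as `j ≥ 2(k + 60)/ε`. -/
def S_LN : Prop := ∀ (ε : ℝ) (k : ℕ), 0 < ε → ∃ J : ℕ, ∀ j : ℕ, J ≤ j → ∀ i : ℕ, j ≤ 2 * i + 2 → ∀ L : Finset ℕ,
  (∀ p ∈ L, p.Prime ∧ 2 ^ (j / 10) ≤ p) → (L.card : ℝ) * j ≤ k * (i + 1) →
  (((Icc 1 (2 ^ (i + 3))).filter (fun n => ∀ p : ℕ, p.Prime → p ∣ n → p ∈ L)).card : ℝ) ≤ (2 : ℝ) ^ (ε * i)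

/-- **KZ-RCL** (from RC, LN). Proof. Write `n = l n₀` with `l` the `L`-part of `n`; `QL L n = l · n₀ / rd n₀`. By LN there are at most `2^{ε i/4}` possible `l` (the set of the elements of `L`
that are admissible; `l ≤ 2^{i+2}`). Fix `l ≤ 2^{i+2}`; put `y' = max(1, ⌊2^i / l⌋)`. The `n₀` lie in `(a/l, b/l]`, which contains the integers of `(x', x' + L']` with `x' = ⌊a/l⌋`,
`L' ≤ (b - a)/l + 1`. If `l ≤ 2^i / 4`: `(b - a)/l ≤ 2^{i/2}/l ≤ (2^i/l)^{1/2}`, so the interval can be covered by at most `4` intervals of length `≤ y'^{1/2}` with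
`y' ≤ x'' ≤ 8 y'`, and RC gives `∑ (n₀/rd n₀)^{1/2} ≤ C y'^{1/2+ε/4}`; multiply by `l^{1/2}`: `≤ C 2^{(1/2 + ε/4) i}`. If `l > 2^i/4`: `n₀ ≤ 16`, and at most `(b-a)/l + 1 ≤ 5` values:
`≤ C l^{1/2} ≤ C 2^{i/2}`. Total `≤ C 2^{(1/2 + ε/2) i} ≤ 2^{(1/2+ε) i}` for large `j` (`i ≥ (j-2)/2`). -/
def S_RCL : Prop := ∀ (ε : ℝ) (k : ℕ), 0 < ε → ∃ J : ℕ, ∀ j : ℕ, J ≤ j → ∀ i a b : ℕ, j ≤ 2 * i + 2 → 2 ^ i ≤ a → a ≤ b →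
  b ≤ 2 ^ (i + 2) → (b : ℝ) - a ≤ (2 : ℝ) ^ ((i : ℝ) / 2) → ∀ L : Finset ℕ,
  (∀ p ∈ L, p.Prime ∧ 2 ^ (j / 10) ≤ p) → (L.card : ℝ) * j ≤ k * (i + 1) →
  ∑ n ∈ (Ioc a b).filter (Rg j), Real.sqrt (QL L n) ≤ (2 : ℝ) ^ ((1 / 2 + ε) * (i : ℝ))

/-- **KZ-RCS** (from RCL, LN, RAD). Proof. The terms with `QL L n > 2^{i/4}`: `(QL)^{1/2-θ} ≤ 2^{-θ i/4} (QL)^{1/2}`, and RCL gives `≤ 2^{(1/2 - θ/4 + ε/4) i}`; we may assume `ε ≤ θ/10`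
(the statement for small `ε` implies it for larger ones), so this is `≤ 2^{(1/2 - θ/5) i}/2`. The terms with `QL L n = Z ≤ 2^{i/4}`: `n = l s n₁`, `l` the `L`-part, `s` the powerful part of `n/l`
(the part with exponents `≥ 2`), `n₁` squarefree; `QL = l · s/rd s`, `s ≤ (s / rd s)²`, `rd s ≤ s/rd s ≤ 2^{i/4}`, `s ≤ 2^{i/2}`. For fixed `(l, s)` there are at most `1 + (b-a)/(l s)`
values of `n`, with weight `(l s/rd s)^{1/2}`. The number of `l` is `≤ 2^{ε i/8}`, and `∑_s`: for `s/rd s ∼ D` one has `rd s ≤ D`-many…: by RAD the number of powerful `s ≤ D²` with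
`rd s ≤ D` is `≤ C D · 2^{ε i/8}`. So the sum is `≤ 2^{ε i/4} ∑_{D ≤ 2^{i/4}} [D · (l D)^{1/2} + (b-a) ∑_s (l s/rd s)^{1/2}/(l s)]`. Second part: `∑_{s} (s/rd s)^{1/2}/s = ∑ (s rd s)^{-1/2}` over powerful
`s ≤ 2^{i/2}`, `≤ ∏_p (1 + p^{-3/2} + p^{-2} + …) ≤ C`. First part: with `l D ≤ 2^{i/4}`: `≤ 2^{(1/4 + 1/8) i}`. Total `≤ 2^{ε i/2}((b - a) + 2^{3i/8})`. -/
def S_RCS : Prop := ∀ (ε θ : ℝ) (k : ℕ), 0 < ε → 0 < θ → θ ≤ 1 / 10 → ∃ J : ℕ, ∀ j : ℕ, J ≤ j → ∀ i a b : ℕ, j ≤ 2 * i + 2 →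
  2 ^ i ≤ a → a ≤ b → b ≤ 2 ^ (i + 2) → (b : ℝ) - a ≤ (2 : ℝ) ^ ((i : ℝ) / 2) → ∀ L : Finset ℕ,
  (∀ p ∈ L, p.Prime ∧ 2 ^ (j / 10) ≤ p) → (L.card : ℝ) * j ≤ k * (i + 1) →
  ∑ n ∈ (Ioc a b).filter (Rg j), (QL L n) ^ (1 / 2 - θ) ≤
    (2 : ℝ) ^ (ε * i) * (((b : ℝ) - a) + (2 : ℝ) ^ ((1 / 2 - θ / 5) * (i : ℝ)))

/-- **KZ-RCH**: the same weights in long sums. Proof. The function `n ↦ (QL L n)^{1/2}/n` is multiplicative, so the sum is at most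
`∏_{p ∈ L} (1 + ∑_{e ≥ 1} p^{-e/2}) ∏_{2^{j/10} ≤ p ≤ 2^i, p ∉ L} (1 + 1/p + ∑_{e ≥ 2} p^{-(e+1)/2}) ≤ exp (|L| · 4 · 2^{-j/20}) · exp (∑_{p ≤ 2^i} 1/p + C)` `≤ 2^{ε i/2} · C i` for large `j`
(`∑_{p ≤ 2^i} 1/p ≤ ∑_{n ≤ 2^i} …`: use `∑_{p ≤ x} 1/p ≤ log log x + C`, or simply the Euler product `∏_{p ≤ x} (1 - 1/p)^{-1}`, which is at most `C log x`; a cruder way: all primes are
`≥ 2^{j/10}`, so an integer `n ≤ 2^i` has at most `10 i/(j-10) + …` prime factors and `∏ (1 + 1/p) ≤ …`). It suffices to have the bound `C i^C`. -/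
def S_RCH : Prop := ∀ (ε : ℝ) (k : ℕ), 0 < ε → ∃ J : ℕ, ∀ j : ℕ, J ≤ j → ∀ i t : ℕ, j ≤ 2 * i + 2 → t ≤ i → ∀ L : Finset ℕ,
  (∀ p ∈ L, p.Prime ∧ 2 ^ (j / 10) ≤ p) → (L.card : ℝ) * j ≤ k * (i + 1) →
  ∑ n ∈ (Icc 1 (2 ^ t)).filter (Rg j), Real.sqrt (QL L n) / n ≤ (2 : ℝ) ^ (ε * i)

end Pool.Agent.Q18.KZ
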