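import Pool.Agent.Q18.KZ.S1

/-!
# Project KZ (helper18), second statement file: the events

Every statement is a `Prop` with a complete proof in its docstring. `C` denotes constants that may change from line to line (they depend on `E` and on the
numbers of factors, never on `i, I, j`); `for large j` is the threshold `J`. Abbreviations: `x = 2^i`, `X = 2^I`, `θ = dd - d1 = 10^(-16)`, `h = hh δ i`,
`2^{(1/2-δ)i-1} ≤ h ≤ 2^{(1/2-δ)i}`. For a prime factor `p` of a number `n` with `Rg j n` one has `rho j p = p^{-1/2+d1}`. If `Rg j n` and `n ≤ 2^{i+2}`, `j ≤ 2 i + 2`, `j ≥ 20`,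
then `n` has at most `20 (i+2)/j` prime factors with multiplicity, and at most `2^{20(i+2)/j}` divisors.
-/

set_option autoImplicit false

namespace Pool.Agent.Q18.KZ

open Finset Filter Topology MeasureTheory
open scoped Classical
open Pool.Agent.W76.MO (hh nc cell lp Rough)
open Q236.CM (LP)

/-! ### deterministic facts -/

/-- **KZ-FF**: facts on the families. Proof. Cells of scale `i` with index `< nc δ i` lie in `(2^i, 2^{i+1}]` (`nc * hh ≤ 2^i`). First family: `v ∈ VR i`, `v q ∈ Act1`, `q ≥ 2^i/v ≥ 2^{0.615 i}`.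
Second family: `n = m q` squarefree, not prime, `2^{0.24 i}`-rough, `n ≤ 2^{i+1}`; five prime factors would give `n ≥ 2^{1.2 i} > 2^{i+1}` (`i ≥ 1000`), so `n` has at most four; `q` is the largest one, so
`q^4 ≥ n`, `m = n/q ≤ n^{3/4}`; `m > 1` (`n` is not prime, and `n > 1`), `q ∤ m` (squarefree). -/
def S_FF : Prop := ∀ E : KEnv, ∀ i : ℕ, E.i₁ ≤ i →
  (∀ u ∈ E.Fam1 i, u.1.Prime ∧ u.2.Prime ∧ u.1 ∈ VR i ∧ u.1 < u.2 ∧ (2 : ℝ) ^ (0.615 * (i : ℝ)) ≤ u.2 ∧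
    2 ^ i < u.1 * u.2 ∧ u.1 * u.2 ≤ 2 ^ (i + 1) ∧ u.1 * u.2 ∈ E.Act1 i) ∧
  (∀ u ∈ E.Fam2 i, Squarefree u.1 ∧ 1 < u.1 ∧ u.2.Prime ∧ ¬ u.2 ∣ u.1 ∧ (∀ p : ℕ, p.Prime → p ∣ u.1 → (2 : ℝ) ^ (0.24 * (i : ℝ)) ≤ p) ∧
    u.1.primeFactors.card ≤ 3 ∧ (u.1 : ℝ) ≤ (2 : ℝ) ^ (0.75 * ((i : ℝ) + 1)) ∧ (2 : ℝ) ^ (0.25 * (i : ℝ)) ≤ u.2 ∧
    2 ^ i < u.1 * u.2 ∧ u.1 * u.2 ≤ 2 ^ (i + 1) ∧ u.1 * u.2 ∈ E.Act2 i)

/-- **KZ-PW**: the pointwise inequality. Proof. Let `l = l₁ l₀`, `l₁` the part composed of primes of `L`. The product over `p ∣ l`, `p ∉ L` of `rho j p = p^{-1/2+d1}` is `(rd l₀)^{-1/2+d1}`, so the left side is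
`n^{-1} l^{1/2-dd} (rd l₀)^{-1/2+d1} = n^{-1} l^{-θ} l₁^{1/2-d1} (l₀/rd l₀)^{1/2-d1} = n^{-1} l^{-θ} (QL L l)^{1/2-d1}` (`dd = d1 + θ`), and `QL L l ≤ QL L n` because `l ∣ n` (compare prime by prime: the
exponents increase, all factors are `≥ 1`). -/
def S_PW : Prop := ∀ (j n l : ℕ) (L : Finset ℕ), Rg j n → l ∣ n →
  (l : ℝ) ^ (-(1 / 2 : ℝ) - dd) * (((n / l : ℕ) : ℝ))⁻¹ * ∏ p ∈ l.primeFactors \ L, rho j p ≤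
    (n : ℝ)⁻¹ * (l : ℝ) ^ (-(dd - d1)) * (QL L n) ^ (1 / 2 - d1)

/-- **KZ-F1** (from FF): few multipliers for a given host prime. Proof. First family: `m = v` is prime, so `l ∣ m`, `l ≠ m` forces `l = 1`. By `light` the number of `v` is `≤ 2^{(5/26 - 1/2000) i}`, and
`v^{-1/2+d1} ≤ 2^{-(5/13)(1/2 - d1) i}`: the sum is `≤ 2^{(-1/2000 + 10^{-4}/2) i} ≤ 2^{-i/2500}/2`. Second family: `r = m/l > 1` is composed of primes `≥ 2^{0.24 i}`, `l q r` lies in a cell of `B2 i`. For each of the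
`≤ 2^{0.1165 i}` cells there are at most `1 + h/(l q)` such `r`, and all `r ∈ (x/(lq), 2x/(lq)]`, i.e. `R < r ≤ 2R`, `R = x/(lq)`, `2^{0.24 i}/2 ≤ R ≤ 2^{0.75(i+1)}`. Sum
`≤ 2^{0.1165 i}(R^{-1/2+d1} + (h/x) R^{1/2+d1}) ≤ C 2^{(0.1165 - 0.12 + 10^{-4}) i} + C 2^{(0.1165 - 1/2 + 0.375 + 10^{-4} + δ) i} ≤ 2^{-i/2500}/2` for large `i`. (If `l = 0` or `l` does not divide any `m` the sum is empty.) -/
def S_F1 : Prop := ∀ E : KEnv, ∃ J : ℕ, ∀ i : ℕ, J ≤ i → ∀ q l : ℕ,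
  ∑ u ∈ (E.Fam i).filter (fun u => u.2 = q ∧ l ∣ u.1 ∧ l ≠ u.1), (((u.1 / l : ℕ) : ℝ)) ^ (-(1 / 2 : ℝ) + d1) ≤
    (2 : ℝ) ^ (-((i : ℝ) / 4000))

/-- **KZ-F2** (from FF): fixed multiplier. Proof. For fixed `w` and a cell `J` there are at most `1 + h/w` integers `s` with `w s ∈ J`, and for each of them at most `1 + (b-a)/s` multiples of `s` in `(a, b]`.
(1) `w = v ∈ VR i`, `i ≤ 1.166 I`, at most `2^{0.306 i + 1}` cells, `s ≥ 2^{0.615 i}`: the number of pairs is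
`≤ 2^{0.306 i+1}(1 + 2^{i/2 - 5i/13})(1 + 2^{I/2 - 0.615 i})`; the four products are `≤ 2^{0.306 i + 1}`, `2^{0.42139 i+1}`, `2^{I/2 - 0.309 i + 1}`, `2^{I/2 - 0.193 i + 1}`, and `(0.42139 + 0.002) · 1.166 < 0.494`. So the total is
`≤ 2^{I/2 - i/500}` for large `i`.
(2) `2^{0.24 i} ≤ w ≤ 2^{0.76 i}`, at most `2^{0.1165 i}` cells, `s > 2^i/w ≥ 2^{0.24 i}`, `s ≤ 2^{I+1}` (if there is any pair), so `w ≥ 2^{i-I-1}` and `i ≤ (I+1)/0.24`: the four products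
`2^{0.1165 i}`, `2^{0.6165 i}/w`, `2^{0.1165 i + I/2}/s`, `2^{0.6165 i + I/2}/(w s)` are `≤ 2^{I/2 - i/500}/8`: the first since `(0.1165 + 0.002) i ≤ 0.1185 (I+1)/0.24 ≤ 0.494 I + 1`; the second: if `i ≤ 1.3158 I` use `w ≥ 2^{0.24 i}`:
`(0.3765 + 0.002) · 1.3158 < 0.4981`; if `i > 1.3158 I` use `w ≥ 2^{i - I - 1}`: `I - 0.3835 i + 1 ≤ I/2 - 0.002 i - 0.0019 I + 1` since `0.3815 · 1.3158 > 0.5019`; the third and fourth are clear. -/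
def S_F2 : Prop := ∀ E : KEnv, ∃ J : ℕ, ∀ i I a b w : ℕ, J ≤ i → J ≤ I → 2 ^ I ≤ a → a ≤ b → b ≤ 2 ^ (I + 1) →
  (b : ℝ) - a ≤ (2 : ℝ) ^ ((I : ℝ) / 2) →
  (w ∈ VR i → (i : ℝ) ≤ 1.166 * I →
    ((((Ioc a b) ×ˢ (range (2 ^ (I + 1) + 1))).filter (fun u => u.2 ∣ u.1 ∧ w * u.2 ∈ E.Act1 i)).card : ℝ) ≤
      (2 : ℝ) ^ ((I : ℝ) / 2 - (i : ℝ) / 500)) ∧
  ((2 : ℝ) ^ (0.24 * (i : ℝ)) ≤ w → (w : ℝ) ≤ (2 : ℝ) ^ (0.76 * (i : ℝ)) →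
    ((((Ioc a b) ×ˢ (range (2 ^ (I + 1) + 1))).filter (fun u => u.2 ∣ u.1 ∧ w * u.2 ∈ E.Act2 i)).card : ℝ) ≤
      (2 : ℝ) ^ ((I : ℝ) / 2 - (i : ℝ) / 500))

/-- **KZ-F3** (from FF): divisible pairs with a large cofactor. Proof. Let `K` be the number of cells, `K ≤ 2^{0.306 i + 1}` (first case) or `≤ 2^{0.1165 i}` (second case); `n = κ n'`, `n' ∈ J`, so `κ ≍ R := 2^{I-i}` and
`R ≥ 2^{0.31 i - 2}` (`≥ 2^{0.12 i - 2}`). Bound B: for a cell `J` the `κ` lie in `(a/max J, b/min J)`, of length `≤ 8 R (2^{-I/2} + 2^{-i/2}) ≤ 16 R 2^{-i/2}`; for each `κ` at most `1 + (b-a)/κ ≤ 1 + 4 · 2^{I/2}/R` values of `n'`: number of pairs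
`≤ K (1 + 16 R 2^{-i/2})(1 + 4 · 2^{I/2}/R)`. The products: `K ≤ 2^{0.306 i+1}` with `i ≤ (I + 2)/1.31` (`/1.12`); `4 K 2^{I/2}/R ≤ 2^{I/2 - 0.0035 i + 5}`; `64 K 2^{I/2 - i/2} ≤ 2^{I/2 - 0.19 i + 7}`; `16 K R 2^{-i/2} ≤ 2^{I - 1.194 i + 5}`, which is
`≤ 2^{I/2 - i/500 - 3}` if `i ≥ 0.43 I`, `I` large. Bound A, for `i < 0.43 I`: there are at most `K h` values of `n'`, each with at most `1 + (b-a)/n'` values of `n`: `≤ K 2^{i/2}(1 + 2^{I/2 - i}) ≤ 2^{0.806 i + 1} + 2^{I/2 - 0.19 i + 1}`, and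
`0.808 · 0.43 < 0.348`. -/
def S_F3 : Prop := ∀ E : KEnv, ∃ J : ℕ, ∀ i I a b : ℕ, J ≤ i → J ≤ I → 2 ^ I ≤ a → a ≤ b → b ≤ 2 ^ (I + 1) →
  (b : ℝ) - a ≤ (2 : ℝ) ^ ((I : ℝ) / 2) →
  ((((Ioc a b) ×ˢ (range (2 ^ (I + 1) + 1))).filter (fun u => u.2 ∣ u.1 ∧ u.2 ∈ E.Act1 i ∧
      (2 : ℝ) ^ (0.31 * (i : ℝ)) ≤ ((u.1 / u.2 : ℕ) : ℝ))).card : ℝ) ≤ (2 : ℝ) ^ ((I : ℝ) / 2 - (i : ℝ) / 500) ∧
  ((((Ioc a b) ×ˢ (range (2 ^ (I + 1) + 1))).filter (fun u => u.2 ∣ u.1 ∧ u.2 ∈ E.Act2 i ∧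
      (2 : ℝ) ^ (0.12 * (i : ℝ)) ≤ ((u.1 / u.2 : ℕ) : ℝ))).card : ℝ) ≤ (2 : ℝ) ^ ((I : ℝ) / 2 - (i : ℝ) / 500)

/-- **KZ-LC**: the light count at an end point. Proof. Let `(v, k)` be counted, `A = 2^i + k h` the left end point of the cell. `|A - v e/m| ≤ 2^{0.57 i + 2}` and `2^i ≤ A ≤ 2^{i+1}` give `v ∈ [v₀/4, 4 v₀]` with `v₀ = 2^i m/e` (for large `i`).
By `us_q` the set `LqD` of the cell `k` and of `v` has at least `cq h/(v i) ≥ cq h/(4 v₀ i)` elements `q`; they are light primes with `v q ∈ cell k ⊆ Act1`, so `|v q - A| ≤ h`, `|q - e/m| ≤ (2^{0.57 i+2} + h)/v ≤ 2^{0.57 i + 5}/v₀`. There are at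
most `2^{0.57 i + 6}/v₀ + 1 ≤ 2^{0.57 i + 7}/v₀` such integers `q` (`v₀ ≤ 4 · 2^{0.385 i}`), by `light` each has at most `2^{(5/26 - 1/2000) i}` multipliers `v ∈ VR i` with `v q ∈ Act1`, and `(v, q)` determines `k`. Double counting of the triples `(v, k, q)`:
`#(v,k) · cq h/(4 v₀ i) ≤ 2^{0.57 i + 7}/v₀ · 2^{(5/26 - 1/2000) i}`, so `#(v, k) ≤ C i 2^{(0.07 + δ + 5/26 - 1/2000) i} ≤ 2^{(0.07 + 5/26 - 1/2100) i}`. -/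
def S_LC : Prop := ∀ E : KEnv, ∃ J : ℕ, ∀ i e m : ℕ, J ≤ i → 1 ≤ m → 1 ≤ e →
  ∑ v ∈ VR i, (((E.B1 i).filter (fun k => v ∈ E.Us i k ∧
    |((2 : ℝ) ^ i + k * hh E.δ i) * m - v * e| ≤ (2 : ℝ) ^ (0.57 * (i : ℝ) + 2) * m)).card : ℝ) ≤
      (2 : ℝ) ^ ((0.07 + 5 / 26 - 1 / 2100) * (i : ℝ))

/-- **KZ-WC** (from RCL): weighted sums over sparse sets. Proof. Terms with `QL L n ≤ 2^{i/1000}`: at most `|D| 2^{i/2000} ≤ 2^{I/2 - i/500 + i/2000} ≤ 2^{I/2 - i/1000}`, and `i ≥ I/10^6 - 1`. Terms with `QL L n > 2^{i/1000}`: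
`(QL L n)^{1/2-d1} ≤ 2^{-d1 i/1000} (QL L n)^{1/2}`, every `n` occurs at most `τ(n) ≤ 2^{20(I+2)/j}` times, and RCL gives `≤ 2^{-d1 i/1000 + 20(I+2)/j + (1/2 + ε) I}` with `d1 i/1000 ≥ (0.999 · 10^{-7})(I/10^6 - 1) ≥ 0.999 · 10^{-13} I - 1`; take
`ε = 10^{-16}` and `j` large. -/
def S_WC : Prop := ∀ k : ℕ, ∃ J : ℕ, ∀ j : ℕ, J ≤ j → ∀ i I a b : ℕ, j ≤ i → j ≤ I → (I : ℝ) ≤ 10 ^ 6 * ((i : ℝ) + 1) →
  2 ^ I ≤ a → a ≤ b → b ≤ 2 ^ (I + 1) → (b : ℝ) - a ≤ (2 : ℝ) ^ ((I : ℝ) / 2) → ∀ L : Finset ℕ,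
  (∀ p ∈ L, p.Prime ∧ 2 ^ (j / 10) ≤ p) → (L.card : ℝ) * j ≤ k * (I + 1) → ∀ D : Finset (ℕ × ℕ),
  (∀ u ∈ D, u.1 ∈ Ioc a b ∧ Rg j u.1 ∧ u.2 ∣ u.1) → (D.card : ℝ) ≤ (2 : ℝ) ^ ((I : ℝ) / 2 - (i : ℝ) / 500) →
  ∑ u ∈ D, (QL L u.1) ^ (1 / 2 - d1) ≤ (2 : ℝ) ^ ((1 / 2 - 9 / 10 ^ 14) * (I : ℝ))

/-! ### the events have large probability -/

/-- **KZ-XS**: almost surely `V` consists of primes `≥ 2^(j/10)`. Proof. For every other `p`, `P(V p = true) = rho j p = 0` (`IsRand` for `S = {p}`, `φ p true = 1`, `φ p false = 0`); countable union. -/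
def S_XS : Prop := ∀ (j : ℕ) (P : Measure (ℕ → Bool)), IsRand (rho j) P →
  P {V | ¬ ∀ p : ℕ, V p = true → p.Prime ∧ 2 ^ (j / 10) ≤ p} = 0

/-- **KZ-XE**. Proof. `∫ ∑_{v < N, v ∈ V} v^{-1/2-dd} = ∑_{v < N} rho j v · v^{-1/2-dd} ≤ ∑_{n ≥ 2^{j/10}} n^{-1-θ} ≤ η/20` for large `j`, uniformly in `N`; Markov's inequality for each `N`; the events `{∑_{v<N} > η}` increase with `N`, so
their union has probability `≤ 1/20` (`measure_iUnion_eq_iSup`). -/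
def S_XE : Prop := ∀ η : ℝ, 0 < η → ∃ J : ℕ, ∀ j : ℕ, J ≤ j → ∀ P : Measure (ℕ → Bool), IsRand (rho j) P →
  P {V | ¬ EvE η V} ≤ 1 / 20

/-- **KZ-XR** (from TB, PW, RCS). Proof. TB with `ε = e0/2`, `i0 = ⌈j/2⌉`, `R i = {(a, b)}` (at most `(2^{i+2}+1)^2 ≤ 2^{4i}`), `A = {(n, l) : n ∈ (a, b], Rg j n, l ∣ n}`, `c = l^{-1/2-dd} (n/l)^{-1}`, `S = l.primeFactors`,
`t = 2^{e0 i}((b-a)/2^i + 2^{-(1/2+10^{-5}) i})`. `ZZ = ∑_n SV V n`. A union `L` of at most `10/ε + 2` sets `S` has `|L| ≤ (10/ε + 2) 20 (i+2)/j` elements, all primes `≥ 2^{j/10}`; so RCS applies with `k = ⌈40 (10/ε + 2)⌉`.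
By PW, `Psi ≤ ∑_n n^{-1} τ(n) (QL L n)^{1/2-d1} ≤ 2^{-i} 2^{20(i+2)/j} ∑_n (QL L n)^{1/2-d1} ≤ 2^{-i + 20(i+2)/j + ε i/4}((b-a) + 2^{(1/2 - d1/5) i}) ≤ 2^{-ε i} t`, since `d1/5 ≥ 10^{-5}`. -/
def S_XR : Prop := ∃ J : ℕ, ∀ j : ℕ, J ≤ j → ∀ P : Measure (ℕ → Bool), IsRand (rho j) P → P {V | ¬ EvR j V} ≤ 1 / 20

/-- **KZ-XL** (from TB, PW, RCS). Proof. As XR, with the divisors `l ≥ 2^{i/100}` only; the factor `l^{-θ} ≤ 2^{-i/10^{18}}` of PW gives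
`Psi ≤ 2^{-i + 20(i+2)/j + ε i/4 - i/10^{18}}((b-a) + 2^{(1/2 - d1/5) i})`. -/
def S_XL : Prop := ∃ J : ℕ, ∀ j : ℕ, J ≤ j → ∀ P : Measure (ℕ → Bool), IsRand (rho j) P → P {V | ¬ EvL j V} ≤ 1 / 20

/-- **KZ-XZ** (from TB, FF, F1). Proof. TB with `ε = e0/2`, `R i = {q ≤ 2^{i+1}}`, `A = {u ∈ Fam i : u.2 = q}`, `c = 1`, `S = u.1.primeFactors`, `t = 2^{e0 i}` (for `q > 2^{i+1}` the set is empty). `L`: a union of boundedly many sets of at most 3 primes,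
`|L| ≤ C`. For `u ∈ A` let `l` be the product of the primes in `L` that divide `u.1`: at most `2^{|L|}` values. For fixed `l`: at most one `u` with `u.1 = l`, contributing `1`, and the others contribute `∑ (u.1/l)^{-1/2+d1} ≤ 2^{-i/4000}` by F1.
So `Psi ≤ 2^{|L|+1} ≤ 2^{-ε i} t` for large `i`. -/
def S_XZ : Prop := ∀ E : KEnv, ∃ J : ℕ, ∀ j : ℕ, J ≤ j → ∀ P : Measure (ℕ → Bool), IsRand (rho j) P → P {V | ¬ EvZ E j V} ≤ 1 / 20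

/-- **KZ-XM** (from FF). Proof. The expectation of the sum is `∑_{u ∈ Fam i} TT(u.1) (u.1)^{-1/2+d1} = ww · (i/h) ∑_u (u.1)^{1/2+dd}` (the prime factors of `u.1` are distinct and `≥ 2^{j/10}`). An integer `n` has at most two representations `n = u.1 u.2` in the first
family (both factors prime) and one in the second (`u.2 = lp n`). First family: `≤ 2 · 2 · 2^{0.306 i} h · ww (i/h) 2^{0.385 (1/2 + dd) i} ≤ 4 · 2^{(0.306 + 0.19254 - 1/2) i} ≤ 4 · 2^{-0.00146 i}`. Second: `≤ 2^{0.1165 i} h · ww (i/h) · 2 · 2^{0.75 (1/2 + dd) i}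
≤ 2^{-0.0084 i + 2}`. Markov: the probability that the sum exceeds `2^{-i/4000}` is `≤ 8 · 2^{-0.0012 i}`; sum over `i ≥ j`. -/
def S_XM : Prop := ∀ E : KEnv, ∃ J : ℕ, ∀ j : ℕ, J ≤ j → ∀ P : Measure (ℕ → Bool), IsRand (rho j) P → P {V | ¬ EvM E j V} ≤ 1 / 20

/-- **KZ-XO1** (from CHL). Proof. For `k ∈ B1 i`, `S = Us i k ⊆ VR i`, `a v = v^{-1/2-d1} ≤ M := 2^{-5i/26}`: `∑ ρ a = ∑ 1/v ≥ cu` (`v > 2^{5i/13} ≥ 2^{j/10}`). CHL: `P(Om1 < cu/2) ≤ exp(-cu 2^{5i/26}/8)`. At most `2^i` cells; `∑_{i ≥ j} 2^i exp(-cu 2^{5i/26}/8) ≤ 1/20` for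
large `j`. -/
def S_XO1 : Prop := ∀ E : KEnv, ∃ J : ℕ, ∀ j : ℕ, J ≤ j → ∀ P : Measure (ℕ → Bool), IsRand (rho j) P → P {V | ¬ EvO1 E j V} ≤ 1 / 20

/-- **KZ-XO2** (from SM, FF). Proof. `A = H2D δ i k`, `c_n = m^{1/2-d1}` with `m = n / lp n`, `S_n = m.primeFactors`: `ZZ = Om2`, and the mean is `M = #A ≥ cH h/i`. For `n, n'` with `t = gcd(m, m')`: the difference of products is `0` if `t = 1`, otherwise
`c_n c_{n'} ∏_{∪} ρ = t^{1/2-d1}`. For fixed `n` and fixed `t ∣ m`, `t > 1` (at most 8 divisors, `2^{0.24 i} ≤ t ≤ 2^{0.75(i+1)}`), there are at most `1 + h/t` integers `n'` in the cell with `t ∣ n'`: so the numerator is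
`≤ 4 · #A · 8 · max_t (t^{1/2} + h t^{-1/2}) ≤ 32 · #A (2 · 2^{0.375 i} + h 2^{-0.12 i})`, and the quotient is `≤ C (i/h)(2^{0.375 i} + h 2^{-0.12 i}) ≤ C i 2^{-0.12 i}` (`δ` small). Union over `≤ 2^{0.1165 i}` cells and `i ≥ j`: `≤ ∑ C i 2^{-0.0035 i} ≤ 1/20`. -/
def S_XO2 : Prop := ∀ E : KEnv, ∃ J : ℕ, ∀ j : ℕ, J ≤ j → ∀ P : Measure (ℕ → Bool), IsRand (rho j) P → P {V | ¬ EvO2 E j V} ≤ 1 / 20

/-- **KZ-XG1** (from TC, FF). Proof. TC with `R i = {(a, b) : 2^i ≤ a, b ≤ 2^{i+1}, 2^{0.34 i} ≤ b - a}`, `A = {u ∈ Fam1 i : u.1 u.2 ∈ (a, b]}`, `c = (u.1)^{1/2-d1}`, `S = {u.1}`, `t = 20 CB (b-a)/i`. For `|L| ≤ 5 i`: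
`Psi ≤ #A + ∑_{v ∈ L} v^{1/2} #{q : v q ∈ (a, b]}`. Every `n = u.1 u.2` is `2^{0.24 i}`-rough and has at most two representations, so `btr` gives `#A ≤ 2 CB (b-a)/i`. The second sum is `≤ 5 i · 2^{0.1925 i}(1 + (b-a) 2^{-5i/13}) ≤ (b-a)/i` for large `i`,
as `b - a ≥ 2^{0.34 i}`. So `Psi ≤ 3 CB (b-a)/i ≤ t/2`. -/
def S_XG1 : Prop := ∀ E : KEnv, ∃ J : ℕ, ∀ j : ℕ, J ≤ j → ∀ P : Measure (ℕ → Bool), IsRand (rho j) P →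
  P {V | ¬ EvG1 E (20 * E.CB) j V} ≤ 1 / 20

/-- **KZ-XG2** (from TC, FF). Proof. As XG1 with `A = {u ∈ Fam2 i : u.1 u.2 ∈ (a, b]}`, `S = u.1.primeFactors`, `2^{0.43 i} ≤ b - a`. `L` has at most `15 i` elements. If `l` is the product of the primes of `L` that divide `u.1`, the term is `l^{1/2-d1}`. Terms with `l = 1`:
at most `CB (b-a)/i` by `btr` (`u.1 u.2` is `2^{0.24 i}`-rough and determines `u`). Terms with `l > 1`: `l` is the product of at most three elements of `L`: at most `(15 i + 1)^3` values, `2^{0.24 i} ≤ l ≤ 2^{0.75 (i+1)}`, and at most `1 + (b-a)/l` integers of `(a, b]` are divisible by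
`l`: total `≤ (15 i + 1)^3 (2 · 2^{0.375 i} + (b-a) 2^{-0.12 i}) ≤ (b-a)/i` for large `i`. -/
def S_XG2 : Prop := ∀ E : KEnv, ∃ J : ℕ, ∀ j : ℕ, J ≤ j → ∀ P : Measure (ℕ → Bool), IsRand (rho j) P →
  P {V | ¬ EvG2 E (20 * E.CB) j V} ≤ 1 / 20

/-- **KZ-HNP** (from FF, PW, F1, F2, WC, RCL): the estimate of `Psi` for the loads, `m ∤ n/q`. Here `F` is one of the two families. Proof. Let `α = (n, u, l)`, `u = (m, q)`, `m' = n/q`, `l ∣ m'`, `c = TT(m) l^{-1/2-dd} (m'/l)^{-1}`, `S = primes(m) ∪ primes(l)`. Let `m = g t r`,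
`g` the product of the primes of `m` in `L`, `t` the product of the primes of `m` outside `L` which divide `m'`, `r` the rest (`m` is squarefree). The product of `rho` over `S \ L` is at most
`(∏_{p ∣ l, p ∉ L} rho p) · (t r)^{-1/2+d1} · t^{1/2-d1}` (the primes of `t` may divide `l`, then they are counted once; `1 ≤ t^{1/2-d1}` covers the other case) `= r^{-1/2+d1} ∏_{p ∣ l, p ∉ L} rho p`. By PW for `m'` (`Rg j m'`): the sum over `l` is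
`≤ τ(m') m'^{-1} (QL L m')^{1/2-d1} r^{-1/2+d1}`, and `QL L m' ≤ QL L n`. Next `TT(m) m'^{-1} ≤ 8 · 2^{(δ/2+θ) i - I} · i^{-39}`, because `m ≤ 2^{i+1}/q`, `m' ≥ 2^I/q`, `h ≥ 2^{(1/2-δ)i-1}`; `i ≤ 4 I + 8` as `2^{i/4} ≤ q ≤ 2^{I+1}`. So (with `τ(n) ≤ 2^{20(I+2)/j}`)
`Psi ≤ 2^{-I + 5·10^{-16} I + ε I} ∑_{n} ∑_{u} (QL L n)^{1/2-d1} r^{-1/2+d1}`, `ε` as small as we like for large `j`.
(A) Terms with `r > 1`: fix `n`, `q ∣ n` and `l₁ = g t`, a product of at most three elements of `L ∪ primes(n)`: at most `(C I)^3` values (`|L| ≤ k (I+1)/j ≤ k (I+1)`). By F1 the sum over `m` (`l₁ ∣ m`, `l₁ ≠ m`) is `≤ 2^{-i/4000} ≤ 2 · 2^{-I/(4·10^9)}` (`2^{I/10^6} ≤ q ≤ 2^{i+1}`). Then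
`∑_n (number of q) (QL L n)^{1/2} ≤ 2^{(1/2+2ε) I}` by RCL. Total `≤ 2^{-I/2 - 10^{-10} I}`.
(B) Terms with `r = 1`: then `g > 1`, since `m ∤ m'`. Fix `g` (at most `(k (I+1) + 1)^3` values); in the first family `g = m = v ∈ VR i`; in the second `2^{0.24 i} ≤ g ≤ 2^{0.76 i}`. The pair `(n, s)`, `s = t q`, satisfies `s ∣ n` (`t ∣ m' = n/q`) and `g s = m q ∈ Act`, and determines `(m, q)` up to
`τ(s)` choices. By F2 the number of the pairs `(n, s)` is `≤ 2^{I/2 - i/500}`, so by WC their contribution is `≤ 2^{(1/2 - 9·10^{-14}) I}`. Total `≤ 2^{-(1/2 + 8·10^{-14}) I}`. -/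
def S_HNP : Prop := ∀ (E : KEnv) (k : ℕ), ∃ J : ℕ, ∀ j : ℕ, J ≤ j → ∀ i I a b : ℕ, j ≤ i → j ≤ I → 2 ^ I ≤ a → a ≤ b → b ≤ 2 ^ (I + 1) →
  (b : ℝ) - a ≤ (2 : ℝ) ^ ((I : ℝ) / 2) → ∀ L : Finset ℕ, (∀ p ∈ L, p.Prime ∧ 2 ^ (j / 10) ≤ p) → (L.card : ℝ) * j ≤ k * (I + 1) →
  ∀ F : Finset (ℕ × ℕ), (F = E.Fam1 i ∧ (i : ℝ) ≤ 1.166 * I) ∨ F = E.Fam2 i →
  ∑ n ∈ (Ioc a b).filter (Rg j), ∑ u ∈ F.filter (fun u => u.2 ∣ n ∧ (2 : ℝ) ^ ((I : ℝ) / 10 ^ 6) ≤ (u.2 : ℝ) ∧ ¬ u.1 ∣ n / u.2),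
    ∑ l ∈ (n / u.2).divisors, E.TT i u.1 * ((l : ℝ) ^ (-(1 / 2 : ℝ) - dd) * (((n / u.2 / l : ℕ) : ℝ))⁻¹) *
      ∏ p ∈ (u.1.primeFactors ∪ l.primeFactors) \ L, rho j p ≤ (2 : ℝ) ^ (-(1 / 2 + 7 / 10 ^ 14) * (I : ℝ))

/-- **KZ-HDP** (from FF, PW, F3, WC): the same for `m ∣ n/q` with a large cofactor. Proof. As HNP; now `r = 1` always (all primes of `m` divide `m'`), so `Psi ≤ 2^{-I + 5·10^{-16} I + ε I} ∑ (QL L n)^{1/2-d1}` over the pairs `(n, u)`, `u.1 u.2 ∣ n`; the pair `(n, s)`,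
`s = u.1 u.2 ∈ Act`, determines `u` up to two choices (FF), F3 and WC. (`2^{I/10^6} ≤ q ≤ 2^{i+1}`.) -/
def S_HDP : Prop := ∀ (E : KEnv) (k : ℕ), ∃ J : ℕ, ∀ j : ℕ, J ≤ j → ∀ i I a b : ℕ, j ≤ i → j ≤ I → 2 ^ I ≤ a → a ≤ b → b ≤ 2 ^ (I + 1) →
  (b : ℝ) - a ≤ (2 : ℝ) ^ ((I : ℝ) / 2) → ∀ L : Finset ℕ, (∀ p ∈ L, p.Prime ∧ 2 ^ (j / 10) ≤ p) → (L.card : ℝ) * j ≤ k * (I + 1) →
  ∀ (F : Finset (ℕ × ℕ)) (x : ℝ), (F = E.Fam1 i ∧ x = 0.31) ∨ (F = E.Fam2 i ∧ x = 0.12) →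
  ∑ n ∈ (Ioc a b).filter (Rg j), ∑ u ∈ F.filter (fun u => u.2 ∣ n ∧ (2 : ℝ) ^ ((I : ℝ) / 10 ^ 6) ≤ (u.2 : ℝ) ∧
    (u.1 ∣ n / u.2 ∧ (2 : ℝ) ^ (x * (i : ℝ)) ≤ ((n / u.2 / u.1 : ℕ) : ℝ))),
    ∑ l ∈ (n / u.2).divisors, E.TT i u.1 * ((l : ℝ) ^ (-(1 / 2 : ℝ) - dd) * (((n / u.2 / l : ℕ) : ℝ))⁻¹) *
      ∏ p ∈ (u.1.primeFactors ∪ l.primeFactors) \ L, rho j p ≤ (2 : ℝ) ^ (-(1 / 2 + 7 / 10 ^ 14) * (I : ℝ))

/-- **KZ-XHN** (from TB, FF, HNP). Proof. TB with `ε = 10^{-14}`, scale `I`, `R I = {(a, b, i, e)}`, `a, b ≤ 2^{I+1}`, `i ≤ 4 I + 8`, `e ∈ {0, 1}` the family (for larger `i` the sum is empty, because `2^{i/4} ≤ u.2 ≤ 2^{I+1}`); `A = {(n, u, l)}` as in HNP, `c = TT(u.1) l^{-1/2-dd} (n/(u.2 l))^{-1}`,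
`S = u.1.primeFactors ∪ l.primeFactors`, `t = 2^{-(1/2 + 3·10^{-14}) I}`; `ZZ = Ld`. A union `L` of at most `10/ε + 2` sets `S` has at most `(10/ε + 2)(3 + 20 (I+2)/j)` elements, so `|L| j ≤ k (I+1)` with a constant `k` (`j ≤ I`), all primes `≥ 2^{j/10}`. `Psi ≤ 2^{-(1/2+7·10^{-14}) I} ≤ 2^{-ε I} t`. -/
def S_XHN : Prop := ∀ E : KEnv, ∃ J : ℕ, ∀ j : ℕ, J ≤ j → ∀ P : Measure (ℕ → Bool), IsRand (rho j) P → P {V | ¬ EvHN E j V} ≤ 1 / 20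

/-- **KZ-XHD** (from TB, FF, HDP). Proof. As XHN. (If there is a term then `2^i < u.1 u.2 ≤ n ≤ 2^{I+1}`, so `i ≤ I`.) -/
def S_XHD : Prop := ∀ E : KEnv, ∃ J : ℕ, ∀ j : ℕ, J ≤ j → ∀ P : Measure (ℕ → Bool), IsRand (rho j) P → P {V | ¬ EvHD E j V} ≤ 1 / 20

/-- **KZ-XT** (from TB, PW, LC, RCH). Proof. TB with `ε = 1/10000`, scale `I`, `R I = {(e, i) : e ≤ 2^{I+1}, 1.166 I < i ≤ 2 I}`, `A = {(m, l, v, k) : m ≤ 2^{0.3 I}, Rg j m, l ∣ m, v ∈ VR i, k ∈ B1 i, v ∈ Us i k, |…| ≤ …}`,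
`c = l^{-1/2-dd} (m/l)^{-1} v^{dd-d1} ww i`, `S = l.primeFactors ∪ {v}` (`v > 2^{5i/13} > 2^{0.44 I} > m`, so `v ∤ l`), `t = 2^{-(1/2 + 1/1000) I}`. By PW the sum over `l` is `≤ τ(m) m^{-1} (QL L m)^{1/2}`; let `N(v)` be the number of `k` for given `(m, v)`.
`Psi ≤ ∑_m τ(m) m^{-1} (QL L m)^{1/2} [ww ∑_{v ∉ L} v^{dd-d1} v^{-1/2+d1} N(v) + ww ∑_{v ∈ L} v^{dd-d1} N(v)]`. By LC, `∑_v v^{-1/2+dd} N(v) ≤ 2^{(-(5/13)(1/2 - dd) + 0.07 + 5/26 - 1/2100) i} ≤ 2^{(0.07 - 1/2300) i}`. For every `v`: `2^i + k h` lies in an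
interval of length `2^{0.57 i + 3}`, so `N(v) ≤ 2^{0.57 i + 3}/h + 1 ≤ 2^{(0.07 + δ) i + 5}`; `|L| ≤ C I`, `v^{dd - d1} ≤ 2^{i/10^{16}}`. Hence the bracket is `≤ C I 2^{(-0.43 + 10^{-15}) i} ≤ C I 2^{-0.50138 I + 10^{-14} I}` (`i > 1.166 I`), and by RCH the sum over `m`
is `≤ 2^{10^{-6} I}`. So `Psi ≤ 2^{-0.5013 I} ≤ 2^{-ε I} t`. -/
def S_XT : Prop := ∀ E : KEnv, ∃ J : ℕ, ∀ j : ℕ, J ≤ j → ∀ P : Measure (ℕ → Bool), IsRand (rho j) P → P {V | ¬ EvT E j V} ≤ 1 / 20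

/-- **KZ-EX** (from PS, XS, XE, XR, XL, XZ, XM, XO1, XO2, XG1, XG2, XHN, XHD, XT): the random set exists. Proof. `0 ≤ rho ≤ 1`. The union of the 12 exceptional events has probability at most `12/20 < 1`. -/
def S_EX : Prop := ∀ (E : KEnv) (η : ℝ), 0 < η → ∃ J : ℕ, ∀ j : ℕ, J ≤ j → ∃ V : ℕ → Bool, Ev E (20 * E.CB) η j V

end Pool.Agent.Q18.KZ
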