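import Pool.Agent.Q18.KZ.S3
import Pool.Agent.Q240.KS.Stm2
import Pool.Agent.W76.MO.Stmts

/-!
# Project KZ: existence of the environment (`Nonempty KEnv`) from the number theory, and the end

Inputs: `MAINP (1/2) 0.306` (W0), `MAINP 0.43 0.045` (W1), `MAINP (13/16) (13/16)` (E), the lower bound sieve (SI), the
upper bound sieve `Pool.Agent.W761.MO.btr`.
-/

set_option autoImplicit false

namespace Pool.Agent.Q18.KZ

open Finset Filter Topology MeasureTheory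
open scoped Classical
open Pool.Agent.W76.MO (hh nc cell lp Rough)
open Pool.Agent.Q240.KS (MAINP pic)

/-- left end point of the cell `(i, k)` -/
noncomputable def lA (δ : ℝ) (i k : ℕ) : ℝ := (2 : ℝ) ^ i + k * hh δ i

/-- the primes in `(M/8, 8M]` -/
noncomputable def PrM (M : ℕ) : Finset ℕ := (range (8 * M + 1)).filter (fun v => v.Prime ∧ M < 8 * v)

/-- the primes `q` with `v q` in the cell `(i, k)` -/
noncomputable def QqD (δ : ℝ) (i k v : ℕ) : Finset ℕ :=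
  (range (2 ^ (i + 1) + 1)).filter (fun q => q.Prime ∧ v * q ∈ cell δ i k)

/-- the number of primes of the cell `(i, k)` -/
noncomputable def np (δ : ℝ) (i k : ℕ) : ℝ := (((cell δ i k).filter Nat.Prime).card : ℝ)

/-- length of the blocks -/
def HB (i : ℕ) : ℕ := 2 ^ (57 * i / 100)

/-- the number of primes of the `b`-th block of scale `i` -/
noncomputable def nb (i b : ℕ) : ℝ :=
  (((Ioc (2 ^ i + b * HB i) (2 ^ i + (b + 1) * HB i)).filter Nat.Prime).card : ℝ)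

/-- the block of the cell `(i, k)` -/
noncomputable def bl (δ : ℝ) (i k : ℕ) : ℕ := k * hh δ i / HB i

/-- **KZ-SI**: lower bound sieve in intervals of length `2^((1/2-δ) i)`. Proof. Lower bound linear sieve (Jurkat-Richert) with level `hh^(1-ε)`, sifting limit `z = 2^(0.24 i)`,
`s = (1/2-δ)(1-ε)/0.24 > 2` (`(1/2)/0.24 = 2.083`); then remove the numbers that are not squarefree: multiples of `p²`, `p ≥ 2^(0.24 i)`: for `p ≤ √hh` at most `hh/p² + 1` each, in total `≤ 2 hh 2^(-0.24 i) + 2^(i/4)`; for `p > √hh` at most one each, and `n = p² m` with `m = 1` (at most two squares in the interval) or `m ≥ 2^(0.24 i)`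
(`m` is rough), hence `p ≤ 2^(0.38 i + 1)`. Total `≤ 2^(0.4 i)`, negligible against `hh/i`. -/
def S_SI : Prop := ∃ cs δs : ℝ, 0 < cs ∧ 0 < δs ∧ ∀ δ : ℝ, 0 < δ → δ ≤ δs → ∃ i₀ : ℕ, ∀ i a : ℕ, i₀ ≤ i → 2 ^ i ≤ a → a ≤ 2 ^ (i + 1) →
  cs * hh δ i / i ≤ (((Ioc a (a + hh δ i)).filter (fun n => Squarefree n ∧ Rough ((2 : ℝ) ^ (0.24 * (i : ℝ))) n)).card : ℝ)

/-- **KZ-CHE**: Proof. Chebyshev: `#{p ∈ (x, 2x]} ≥ c₁ x / log x` (for large `x`), so each dyadic block of the range contributes `≥ c₁/(2 log x) ≥ c₂/i` to `∑ 1/v`, and there are at least `min(et, 1/2) i - 2` dyadic blocks (or from Mertens' theorem). -/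
def S_CHE : Prop := ∀ et : ℝ, 0 < et → ∃ c : ℝ, 0 < c ∧ ∃ J : ℕ, ∀ i : ℕ, J ≤ i →
  c ≤ ∑ v ∈ (range (2 ^ i + 1)).filter (fun v : ℕ => v.Prime ∧ (2 : ℝ) ^ (5 / 13 * (i : ℝ)) < v ∧ (v : ℝ) ≤ (2 : ℝ) ^ ((5 / 13 + et) * (i : ℝ))), 1 / (v : ℝ)

/-- **KZ-PAIR**: pairs of near dilated cells. Proof. If `v = v'` then `|k - k'| ≤ D v/M ≤ 8 D`: at most `|K| (16 D + 1) · 8M` such quadruples. If `v ≠ v'`: for given `k, k'` the condition gives `|v'/v - lA k'/lA k| ≤ D hh v'/(M lA k) ≤ 8 D hh/2^i`; the fractions `v'/v` with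
distinct primes `v ≠ v'` are reduced, hence different for different pairs, and two of them differ by at least `1/(64 M²)`; an interval of length `16 D hh/2^i` contains at most `1 + 1024 D M² hh/2^i` of them. -/
def S_PAIR : Prop := ∀ D : ℝ, 0 < D → ∃ C : ℝ, 0 < C ∧ ∀ (δ : ℝ) (i M : ℕ) (K : Finset ℕ), 1 ≤ M →
  (((((K ×ˢ PrM M) ×ˢ (K ×ˢ PrM M)).filter (fun u => |lA δ i u.1.1 / u.1.2 - lA δ i u.2.1 / u.2.2| ≤ D * hh δ i / M)).card : ℕ) : ℝ) ≤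
    C * ((K.card : ℝ) * M + (K.card : ℝ) ^ 2 * (1 + (M : ℝ) ^ 2 * hh δ i / 2 ^ i))

/-- **KZ-CNT** (from PAIR). Proof. Let `P` be the set of pairs `(k, v)`, `k ∈ 𝒥`, `v ∈ PrM M`, with a `u = u(k,v) ∈ U` within `D hh/M`; `|P| ≥ |𝒥| c M/i`. Cauchy-Schwarz: `|P|² ≤ |U| #{(p, p') ∈ P² : u(p) = u(p')} ≤ |U| C (|𝒥| M + |𝒥|² (1 + M² hh/2^i))` by PAIR with `2D`.
So `c² |𝒥|² M²/i² ≤ C 2^((1/2-γ) i) (|𝒥| M + |𝒥|² + |𝒥|² M² 2^(-i/2))` (`hh ≤ 2^(i/2)`); the last two terms are smaller than a third of the left side for large `i` (`M² ≥ 2^(10 i/13 - 2)`), so `|𝒥| ≤ 3 C c^(-2) i² 2^((1/2-γ) i)/M ≤ 2^(3 i/26)` (`1/2 - 5/13 = 3/26`). -/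
def S_CNT : Prop := ∀ γ c D : ℝ, 0 < γ → 0 < c → 0 < D → ∃ J : ℕ, ∀ (i M : ℕ) (δ : ℝ) (U : Finset ℝ) (Jk : Finset ℕ), J ≤ i → 0 < δ →
  (2 : ℝ) ^ (5 / 13 * (i : ℝ) - 1) ≤ M → (U.card : ℝ) ≤ (2 : ℝ) ^ ((1 / 2 - γ) * (i : ℝ)) →
  (∀ k ∈ Jk, c * M / i ≤ (((PrM M).filter (fun v => ∃ u ∈ U, |lA δ i k / v - u| ≤ D * hh δ i / M)).card : ℝ)) →
  (Jk.card : ℝ) ≤ (2 : ℝ) ^ (3 / 26 * (i : ℝ))

/-- **KZ-HVY** (from PAIR): heavy `q`. Proof. Let `U` be a maximal `hh/M`-separated subset of the set of the `q` in question (`2^i ≤ 2 M q`, `M q ≤ 4 · 2^i`, more than `H = 2^((5/26-1/2000) i)` elements `v` of `VR i` with `v q ∈ ActD δ i K`). For such `v`, `v q ∈ cell k` with `k ∈ K`, so `v ∈ (2^i/q, 2^(i+1)/q] ⊆ [M/4, 4M]`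
(`v ∈ PrM M`) and `|q - lA k/v| ≤ hh/v ≤ 4 hh/M`; the pairs `(k, v)` are different for different `v`. The number of triples `(q, p, p')`, `q ∈ U`, `p, p'` two such pairs, is `≥ |U| H²`, and `≤ 9 C (|K| M + |K|² (1 + M² hh/2^i))` (PAIR with `D = 8`; a real number lies within `4 hh/M` of at most `9` elements of `U`). `|K| M ≤ 2 · 2^(0.691 i)`,
`|K|² M² hh/2^i ≤ 4 · 2^((0.612 + 0.77 - 0.5) i) = 4 · 2^(0.882 i)`, `H² = 2^((10/26 - 1/1000) i)`, `0.882 - 0.38361 = 0.49839 < 0.499`. -/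
def S_HVY : Prop := ∃ J : ℕ, ∀ (i M : ℕ) (δ : ℝ) (K : Finset ℕ), J ≤ i → 0 < δ →
  (K.card : ℝ) ≤ 2 * (2 : ℝ) ^ (0.306 * (i : ℝ)) → 1 ≤ M →
  (M : ℝ) ≤ (2 : ℝ) ^ (0.385 * (i : ℝ)) → ∃ U : Finset ℝ, (U.card : ℝ) ≤ (2 : ℝ) ^ (0.499 * (i : ℝ)) ∧
  ∀ q : ℕ, (2 : ℝ) ^ i ≤ 2 * M * q → (M : ℝ) * q ≤ 4 * 2 ^ i →
    (2 : ℝ) ^ ((5 / 26 - 1 / 2000) * (i : ℝ)) < (((VR i).filter (fun v => v * q ∈ ActD δ i K)).card : ℝ) →
    ∃ u ∈ U, |(q : ℝ) - u| ≤ hh δ i / M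

/-- **KZ-POR**: dilated cells with few primes. Proof. `v q ∈ cell k` iff `q ∈ (y, y + hh/v]`, `y = lA k/v ∈ [2^i/(2M), 2^(i+1)/M]`; `hh/v ≥ h := hh/(2M)`. If `#QqD < c' hh/(v i)` then `pic y h ≤ #QqD < c' hh/(M i) = 2 c' h/i ≤ 2 c' h/Y` for `0 < Y ≤ i`. Split the range of `y` into the halves `[2^i/(2M), 2^i/M]` and `[2^i/M, 2^(i+1)/M]` (ratio `2 < e^(4/5)`),
`Y = log (√2 · left end)`. With `c, η₀, Y₀` from the hypothesis: `c' = c/2`, `η = δ₀ = η₀/8` (also `≤ 1/1000`): `h ≥ 2^((3/26 - δ - η) i - 3) ≥ e^((3/16 - η₀) Y)` (`Y ≤ (8/13) i log 2 + 2`, `(3/16)(8/13) = 3/26`, `8 η₀/13 > δ + η`), `h ≤ e^(0.9 Y)`. Let `U` be the union of two maximal `h`-separated sets of such `y` (the set of all `y` is finite):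
`|U| ≤ 2 e^((13/16 - η₀) Y) ≤ 2^((1/2 - η₀/2) i)` (`(13/16)(8/13) = 1/2`). -/
def S_POR : Prop := MAINP (13 / 16) (13 / 16) → ∃ c η δ₀ : ℝ, 0 < c ∧ 0 < η ∧ 0 < δ₀ ∧ ∀ δ : ℝ, 0 < δ → δ ≤ δ₀ → ∃ i₀ : ℕ, ∀ i M : ℕ, i₀ ≤ i →
  (2 : ℝ) ^ (5 / 13 * (i : ℝ) - 1) ≤ M → (M : ℝ) ≤ (2 : ℝ) ^ ((5 / 13 + η) * (i : ℝ)) →
  ∃ U : Finset ℝ, (U.card : ℝ) ≤ (2 : ℝ) ^ ((1 / 2 - η) * (i : ℝ)) ∧
    ∀ k v : ℕ, k < nc δ i → v.Prime → M < v → v ≤ 2 * M → ((QqD δ i k v).card : ℝ) < c * hh δ i / (v * i) →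
      ∃ u ∈ U, |lA δ i k / v - u| ≤ hh δ i / M

/-- **KZ-US** (from CHE, CNT, HVY, POR): the cells with few usable multipliers. Proof. Let `c, η, δ₀` be from POR, `et = min (η, 3/10000)`, `c₀` from CHE, `cu = c₀/2`, `cq = c/2`. Let `k` be in the set `X` on the left: the `v ∈ VR i`, `v ≤ 2^((5/13+et) i)` which are not in the set of usable multipliers have `∑ 1/v ≥ c₀/2`. For each of them `#LqD(k, v) < cq hh/(v i)` or `#LqD(pk k, v) < cq hh/(v i)`.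
In the first case either `#QqD(k, v) < c hh/(v i)` (type 1) or there is a prime `q ∈ QqD(k, v)` with `¬ L q` (type 2); in the second case the same for `pk k` (types 3, 4). Let `M = 2^m`, `M < v ≤ 2M` (at most `i` values of `m`; `M ≥ 2^(5i/13 - 1)`, `M ≤ 2^((5/13+et) i) ≤ 2^(0.385 i)`). By the pigeonhole principle there are `t` and `M` such that at least `M c₀/(8 i)` primes `v ∈ (M, 2M]`
have type `t` for `k`. For fixed `t, M` let `X_{t,M}` be the set of these `k`. Type 1: `|X_{1,M}| ≤ 2^(3i/26)` by CNT with `U` from POR (`γ = η`, `c₀/8`, `D = 1`). Type 2: with `K = Bs ∪ pk(Bs)` and `U` from HVY (`|U| ≤ 2^(0.499 i)`, `γ = 1/1000`): `2^i < v q ≤ 2^(i+1)` gives `2^i ≤ 2 M q`, `M q ≤ 2^(i+1)`, and `|lA k/v - q| ≤ hh/M`, so `|lA k/v - u| ≤ 2 hh/M`; CNT with `D = 2`. Types 3, 4: apply CNT to `pk(X_{t,M})`,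
`|X_{t,M}| ≤ B0 |pk(X_{t,M})|`. Total `|X| ≤ i (2 + 2 B0) 2^(3i/26) ≤ 2^(0.1162 i)`. -/
def S_US : Prop := MAINP (13 / 16) (13 / 16) → ∃ cu cq δ₀ : ℝ, 0 < cu ∧ 0 < cq ∧ 0 < δ₀ ∧ ∀ δ : ℝ, 0 < δ → δ ≤ δ₀ → ∀ B0 : ℕ, ∃ J : ℕ, ∀ (i : ℕ) (Bs : Finset ℕ) (pk : ℕ → ℕ) (L : ℕ → Prop), J ≤ i →
  (∀ k ∈ Bs, k < nc δ i ∧ pk k < nc δ i) → (∀ k' : ℕ, (Bs.filter (fun k => pk k = k')).card ≤ B0) →
  (Bs.card : ℝ) ≤ (2 : ℝ) ^ (0.306 * (i : ℝ)) →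
  (∀ q : ℕ, (((VR i).filter (fun v => v * q ∈ ActD δ i (Bs ∪ Bs.image pk))).card : ℝ) ≤ (2 : ℝ) ^ ((5 / 26 - 1 / 2000) * (i : ℝ)) → L q) →
  ((Bs.filter (fun k => ∑ v ∈ (VR i).filter (fun v => cq * hh δ i / (v * i) ≤ ((LqD δ (fun _ => L) i k v).card : ℝ) ∧
      cq * hh δ i / (v * i) ≤ ((LqD δ (fun _ => L) i (pk k) v).card : ℝ)), 1 / (v : ℝ) < cu)).card : ℝ) ≤ (2 : ℝ) ^ (0.1162 * (i : ℝ))

/-- **KZ-BAD0**: Proof. As `Pool.Agent.Q240.KS.S_FIN1`: `Y = (i + 1/2) log 2`, `h = hh δ i ≥ 2^((1/2-δ) i - 1) ≥ e^((1/2-η) Y)` for `δ ≤ η/2` and large `i`, `U` the set of the left end points of the poor cells. -/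
def S_BAD0 : Prop := MAINP (1 / 2) 0.306 → ∃ c δ₀ : ℝ, 0 < c ∧ 0 < δ₀ ∧ ∀ δ : ℝ, 0 < δ → δ ≤ δ₀ → ∃ i₀ : ℕ, ∀ i : ℕ, i₀ ≤ i →
  (((range (nc δ i)).filter (fun k => np δ i k < c * hh δ i / i)).card : ℝ) ≤ (2 : ℝ) ^ (0.306 * (i : ℝ))

/-- **KZ-BLK**: Proof. The same with `h = HB i = 2^(⌊0.57 i⌋)`; the blocks `b < 2^i/HB i` partition `(2^i, 2^(i+1)]`. -/
def S_BLK : Prop := MAINP 0.43 0.045 → ∃ c₁ : ℝ, 0 < c₁ ∧ ∃ i₀ : ℕ, ∀ i : ℕ, i₀ ≤ i →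
  (((range (2 ^ i / HB i)).filter (fun b => nb i b < c₁ * HB i / i)).card : ℝ) ≤ (2 : ℝ) ^ (0.045 * (i : ℝ))

/-- **KZ-BLC**: geometry of the blocks: a block is a union of `HB i/hh δ i` cells (both are powers of two and `hh δ i ≤ HB i`), `bl δ i k = k/(HB i/hh δ i) < 2^i/HB i`, `HB i/hh δ i ≤ 2^((0.07 + δ) i + 1)`, two cells `k, k'` of the same block satisfy `|k - k'| hh < HB i ≤ 2^(0.57 i)`,
`nb i b` is the sum of `np δ i k` over the cells of the block. -/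
def S_BLC : Prop := ∀ (δ : ℝ) (i : ℕ), 0 < δ → δ ≤ 1 / 100 → 1000 ≤ i →
  (∀ k : ℕ, k < nc δ i → bl δ i k < 2 ^ i / HB i) ∧
  (∀ b : ℕ, b < 2 ^ i / HB i → ((range (nc δ i)).filter (fun k => bl δ i k = b)).card = HB i / hh δ i) ∧
  (((HB i / hh δ i : ℕ) : ℝ) * hh δ i = HB i) ∧
  (((HB i / hh δ i : ℕ) : ℝ) ≤ (2 : ℝ) ^ ((0.07 + δ) * (i : ℝ) + 1)) ∧
  (∀ k k' : ℕ, bl δ i k = bl δ i k' → |(k : ℝ) - k'| * hh δ i ≤ (2 : ℝ) ^ (0.57 * (i : ℝ))) ∧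
  ∀ b : ℕ, b < 2 ^ i / HB i → nb i b = ∑ k ∈ (range (nc δ i)).filter (fun k => bl δ i k = b), np δ i k

/-- **KZ-PRT** (from BLC): partners. Proof. Let `b` be a block that is not poor, `r = HB/hh` its number of cells: `∑ np ≥ c₁ r hh/i`; the poor cells contribute at most `r cU hh/i ≤ (c₁/4) r hh/i`, and `np ≤ CB hh/i` for all cells, so there are at least `(3/4) c₁ r/CB` cells in `b` that are not poor, and at most `r` poor cells: map the poor cells of `b` to the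
cells of `b` which are not poor with fibres of size at most `⌈(4/3) CB/c₁⌉ ≤ B0` (number both sets, `pk` of the `x`-th poor cell = the `(x mod g)`-th cell that is not poor, `g` their number). -/
def S_PRT : Prop := ∀ (δ c₁ cU CB : ℝ) (i : ℕ), 0 < δ → δ ≤ 1 / 100 → 0 < c₁ → 0 < cU → cU ≤ c₁ / 4 → 1 ≤ CB → 1000 ≤ i →
  (∀ k : ℕ, k < nc δ i → np δ i k ≤ CB * hh δ i / i) → ∃ pk : ℕ → ℕ,
  (∀ k : ℕ, k < nc δ i → np δ i k < cU * hh δ i / i → c₁ * HB i / i ≤ nb i (bl δ i k) →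
    pk k < nc δ i ∧ cU * hh δ i / i ≤ np δ i (pk k) ∧ |(k : ℝ) - pk k| * hh δ i ≤ (2 : ℝ) ^ (0.57 * (i : ℝ))) ∧
  ∀ k' : ℕ, ((range (nc δ i)).filter (fun k => np δ i k < cU * hh δ i / i ∧ c₁ * HB i / i ≤ nb i (bl δ i k) ∧ pk k = k')).card ≤ ⌈2 * CB / c₁⌉₊ + 1

/-- **KZ-ENV** (from SI, US, BAD0, BLK, BLC, PRT, `Pool.Agent.W761.MO.btr`): the environment. Proof. `c_W, δ_W` from BAD0, `c₁` from BLK, `cs, δs` from SI, `cu, cq, δ_u` from US, `CB` from btr (`γ = 0.24`, `σ = 0.1`; may be enlarged to `CB ≥ 1`); `cU = min(c_W, c₁/4, cs/2)`, `cH = cs/2`, `B0 = ⌈2CB/c₁⌉ + 1`, `δ = min(δ_W, δs, δ_u, 10^(-24))`, `i₁ ≥ 1000` larger than all thresholds.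
`Bad i = {k < nc : np < cU hh/i}` (`≤ 2^(0.306 i)`, since `cU ≤ c_W`), `Bs i = {k ∈ Bad : c₁ HB/i ≤ nb (bl k)}`, `pi i` from PRT (`np ≤ CB hh/i` by btr: the primes of a cell are rough), `Lt i q` iff `#{v ∈ VR i : v q ∈ ActD δ i (Bs ∪ pi(Bs))} ≤ 2^((5/26-1/2000) i)`, `Us i k` the set in US, `B1 i = {k ∈ Bs : cu ≤ ∑_{Us} 1/v}`, `B2 i = Bad ∖ B1`.
`|B2| ≤ |Bad ∖ Bs| + 2^(0.1162 i) ≤ 2^(0.045 i) 2^((0.07+δ) i + 1) + 2^(0.1162 i) ≤ 2^(0.1165 i)` (BLK, BLC, US). `pi_good`: `pi k` is not in `Bad`. `light`: `ActD` is monotone. `host2`: SI gives `≥ cs hh/i` squarefree rough numbers, fewer than `cU hh/i ≤ (cs/2) hh/i` of them are primes. (For `i < i₁` take the same sets; `sub` and `disj` hold for all `i`; for `i < i₁` the function `pi i` is arbitrary.) -/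
def S_ENV : Prop := MAINP (1 / 2) 0.306 → MAINP 0.43 0.045 → MAINP (13 / 16) (13 / 16) → Nonempty KEnv

/-- **KZ-END** (from FIN, ENV). Proof. For `f` from FIN (as a complex valued function, `f 0` may be any value; on `m, n ≥ 1` it is completely multiplicative) `|S(N)| ≤ C N^(-1/2-c)`, so `S(N) → 0` and `√N |S(N)| → 0`, which contradicts `c'/√N ≤ |S(N)|` for infinitely many `N`. -/
def S_END : Prop := MAINP (1 / 2) 0.306 → MAINP 0.43 0.045 → MAINP (13 / 16) (13 / 16) →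
    ¬ (∀ f : ℕ → ℂ,
      f 1 = 1 →
      (∀ m n : ℕ, 0 < m → 0 < n → f (m * n) = f m * f n) →
      Tendsto (fun N : ℕ => ∑ n ∈ Finset.range N, f (n + 1)) atTop (𝓝 0) →
      ∃ c : ℝ, 0 < c ∧ ∀ M : ℕ, ∃ N : ℕ, M ≤ N ∧ 0 < N ∧
        c / Real.sqrt (N : ℝ) ≤ ‖∑ n ∈ Finset.Icc 1 N, f n‖)

end Pool.Agent.Q18.KZ
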